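import Mathlib

/-!
Linear maps preserving the cone over a planar convex body: Perron-Frobenius, bounded powers.
-/

namespace Pool.Agent.Lib.MP_2f98a8_gt

open Set Filter Topology Matrix

/-- Three-space. -/
abbrev V := Fin 3 → ℝ

/-- Three by three matrices. -/
abbrev Mat := Matrix (Fin 3) (Fin 3) ℝ

/-- The vertical unit vector. -/
def e2 : V := ![0, 0, 1]

@[simp] lemma e2_0 : e2 0 = 0 := rfl
@[simp] lemma e2_1 : e2 1 = 0 := rfl
@[simp] lemma e2_2 : e2 2 = 1 := rfl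

/-- A gauge of a planar convex body, read on the first two coordinates. -/
structure IsGauge (N : V → ℝ) : Prop where
  cont : Continuous N
  add : ∀ x y, N (x + y) ≤ N x + N y
  smul : ∀ c : ℝ, 0 ≤ c → ∀ x, N (c • x) = c * N x
  indep : ∀ x y : V, x 0 = y 0 → x 1 = y 1 → N x = N y
  pos : ∀ x : V, x 0 ≠ 0 ∨ x 1 ≠ 0 → 0 < N x

/-- `M` maps the boundary cone into itself. -/
def PresG (N : V → ℝ) (M : Mat) : Prop := ∀ y, N y = y 2 → N (M *ᵥ y) = (M *ᵥ y) 2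

/-- `M` maps the solid cone into itself. -/
def PresO (N : V → ℝ) (M : Mat) : Prop := ∀ y, N y ≤ y 2 → N (M *ᵥ y) ≤ (M *ᵥ y) 2

variable {N : V → ℝ}

lemma IsGauge.zero (g : IsGauge N) : N 0 = 0 := by simpa using g.smul 0 le_rfl 0

lemma IsGauge.vert (g : IsGauge N) {x : V} (h0 : x 0 = 0) (h1 : x 1 = 0) : N x = 0 :=
  (g.indep x 0 h0 h1).trans g.zero

lemma IsGauge.nonneg (g : IsGauge N) (x : V) : 0 ≤ N x := by
  by_cases h : x 0 ≠ 0 ∨ x 1 ≠ 0
  · exact (g.pos x h).le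
  · push Not at h
    exact (g.vert h.1 h.2).ge

lemma IsGauge.add_e2 (g : IsGauge N) (x : V) (t : ℝ) : N (x + t • e2) = N x :=
  g.indep _ _ (by simp) (by simp)

lemma IsGauge.snd_pos (g : IsGauge N) {x : V} (hx : N x ≤ x 2) (h0 : x ≠ 0) : 0 < x 2 := by
  by_cases h : x 0 ≠ 0 ∨ x 1 ≠ 0
  · exact (g.pos x h).trans_le hx
  · push Not at h
    refine lt_of_le_of_ne ((g.nonneg x).trans hx) fun h2 => h0 ?_
    ext i
    fin_cases i
    · exact h.1
    · exact h.2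
    · exact h2.symm

lemma IsGauge.ne_of_bdry (g : IsGauge N) {x : V} (hx : N x = x 2) (h0 : x ≠ 0) :
    x 0 ≠ 0 ∨ x 1 ≠ 0 := by
  by_contra h
  push Not at h
  have := g.snd_pos hx.le h0
  rw [← hx, g.vert h.1 h.2] at this
  exact lt_irrefl _ this

lemma IsGauge.addO (g : IsGauge N) {x y : V} (hx : N x ≤ x 2) (hy : N y ≤ y 2) :
    N (x + y) ≤ (x + y) 2 := (g.add x y).trans (add_le_add hx hy)

lemma IsGauge.smulO (g : IsGauge N) {x : V} {c : ℝ} (hc : 0 ≤ c) (hx : N x ≤ x 2) :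
    N (c • x) ≤ (c • x) 2 := by
  rw [g.smul c hc]
  exact mul_le_mul_of_nonneg_left hx hc

lemma IsGauge.smulG (g : IsGauge N) {x : V} {c : ℝ} (hc : 0 ≤ c) (hx : N x = x 2) :
    N (c • x) = (c • x) 2 := by
  rw [g.smul c hc, hx]; rfl

lemma IsGauge.norm_le (g : IsGauge N) : ∃ C > 0, ∀ u : V, N u ≤ u 2 → ‖u‖ ≤ C * u 2 := by
  have hc : IsCompact (Metric.sphere (0 : V) 1 ∩ {u | N u ≤ u 2}) :=
    (isCompact_sphere _ _).inter_right (isClosed_le g.cont (continuous_apply 2))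
  have he : ‖e2‖ = 1 := by
    refine le_antisymm ((pi_norm_le_iff_of_nonneg zero_le_one).2 fun i => ?_) ?_
    · fin_cases i <;> simp
    · simpa using norm_le_pi_norm e2 2
  obtain ⟨w, hw, hmin⟩ := hc.exists_isMinOn
    ⟨e2, by simpa using he, by simp [g.vert e2_0 e2_1]⟩ (continuous_apply 2).continuousOn
  have hw0 : w ≠ 0 := by
    rintro rfl
    simpa using hw.1
  have hpos := g.snd_pos hw.2 hw0
  refine ⟨(w 2)⁻¹, inv_pos.2 hpos, fun u hu => ?_⟩
  rcases eq_or_ne u 0 with rfl | hu0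
  · simp
  have hn : 0 < ‖u‖ := norm_pos_iff.2 hu0
  have h1 : w 2 ≤ (‖u‖⁻¹ • u) 2 := hmin ⟨by simp [norm_smul, hn.ne'], g.smulO (by positivity) hu⟩
  simp only [Pi.smul_apply, smul_eq_mul] at h1
  rw [le_inv_mul_iff₀ hpos]
  rw [le_inv_mul_iff₀ hn] at h1
  linarith

lemma IsGauge.presO (g : IsGauge N) {M : Mat} (h : PresG N M) : PresO N M := by
  intro y hy
  let p : V := ![1, 0, N ![1, 0, 0]]
  let q : V := ![-1, 0, N ![-1, 0, 0]]
  let b : V := ![y 0, y 1, N y]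
  have hp : N p = p 2 := g.indep _ _ rfl rfl
  have hq : N q = q 2 := g.indep _ _ rfl rfl
  have hb : N b = b 2 := g.indep _ _ rfl rfl
  have hs : 0 < N ![1, 0, 0] + N ![-1, 0, 0] :=
    add_pos (g.pos _ (Or.inl (by simp))) (g.pos _ (Or.inl (by simp)))
  have e : y = b + ((y 2 - N y) / (N ![1, 0, 0] + N ![-1, 0, 0])) • (p + q) := by
    ext i
    fin_cases i
    · simp [b, p, q]
    · simp [b, p, q]
    · simp [b, p, q]; field_simp; ring
  rw [e, mulVec_add, mulVec_smul, mulVec_add]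
  exact g.addO (h b hb).le (g.smulO (div_nonneg (by linarith) hs.le)
    (g.addO (h p hp).le (h q hq).le))

lemma PresO.pow {M : Mat} (h : PresO N M) (k : ℕ) : PresO N (M ^ k) := by
  induction k with
  | zero => intro y hy; simpa using hy
  | succ k ih => intro y hy; rw [pow_succ', ← mulVec_mulVec]; exact h _ (ih y hy)

lemma PresO.smul (g : IsGauge N) {M : Mat} (h : PresO N M) {c : ℝ} (hc : 0 ≤ c) :
    PresO N (c • M) := by
  intro y hy
  rw [smul_mulVec]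
  exact g.smulO hc (h y hy)

lemma PresG.smul (g : IsGauge N) {M : Mat} (h : PresG N M) {c : ℝ} (hc : 0 ≤ c) :
    PresG N (c • M) := by
  intro y hy
  rw [smul_mulVec]
  exact g.smulG hc (h y hy)

lemma IsGauge.isCompact_base (g : IsGauge N) : IsCompact {x : V | N x ≤ x 2 ∧ x 2 = 1} := by
  obtain ⟨C, -, hC⟩ := g.norm_le
  refine Metric.isCompact_of_isClosed_isBounded
    ((isClosed_le g.cont (continuous_apply 2)).inter
      (isClosed_eq (continuous_apply 2) continuous_const)) ?_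
  refine (Metric.isBounded_closedBall (x := 0) (r := C)).subset fun x hx => ?_
  have := hC x hx.1
  rw [hx.2, mul_one] at this
  simpa using this

lemma IsGauge.perron_strict (g : IsGauge N) {M : Mat}
    (h : ∀ y, N y ≤ y 2 → y ≠ 0 → N (M *ᵥ y) < (M *ᵥ y) 2) :
    ∃ x : V, N x ≤ x 2 ∧ x 2 = 1 ∧ ∃ l : ℝ, M *ᵥ x = l • x := by
  have hB := g.isCompact_base
  obtain ⟨C, hC⟩ := (hB.image (f := fun x => (M *ᵥ x) 2) (by fun_prop)).bddAbove
  have ne : ∀ x : V, x 2 = 1 → x ≠ 0 := by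
    rintro x hx rfl
    simp at hx
  let S : Set (ℝ × V) := (Icc 0 C ×ˢ {x : V | N x ≤ x 2 ∧ x 2 = 1}) ∩
    {p | N (M *ᵥ p.2 - p.1 • p.2) ≤ (M *ᵥ p.2 - p.1 • p.2) 2}
  have hS : IsCompact S := (isCompact_Icc.prod hB).inter_right
    (isClosed_le (g.cont.comp (by fun_prop)) (by fun_prop))
  have mem : ∀ t x, 0 ≤ t → N x ≤ x 2 → x 2 = 1 →
      N (M *ᵥ x - t • x) ≤ (M *ᵥ x - t • x) 2 → (t, x) ∈ S := by
    intro t x ht h1 h2 h3
    refine ⟨⟨⟨ht, ?_⟩, h1, h2⟩, h3⟩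
    have a1 := (g.nonneg _).trans h3
    have a2 : (M *ᵥ x) 2 ≤ C := hC ⟨x, ⟨h1, h2⟩, rfl⟩
    simp only [Pi.sub_apply, Pi.smul_apply, smul_eq_mul, h2] at a1
    show t ≤ C
    linarith
  have he : N e2 ≤ e2 2 := by simp [g.vert e2_0 e2_1]
  obtain ⟨⟨l, x⟩, hp, hmax⟩ := hS.exists_isMaxOn
    ⟨(0, e2), mem 0 e2 le_rfl he rfl (by simpa using (h e2 he (ne _ rfl)).le)⟩
    continuous_fst.continuousOn
  obtain ⟨⟨⟨hl, -⟩, hx1, hx2⟩, hw⟩ := hp
  simp only [mem_ofPred_eq] at hl hx1 hx2 hw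
  refine ⟨x, hx1, hx2, l, ?_⟩
  by_contra hne
  have a1 := h _ hw (sub_ne_zero.2 hne)
  have a2 := h x hx1 (ne x hx2)
  have a3 : 0 < (M *ᵥ x) 2 := (g.nonneg _).trans_lt a2
  let x' : V := ((M *ᵥ x) 2)⁻¹ • (M *ᵥ x)
  have b1 : N x' ≤ x' 2 := g.smulO (by positivity) a2.le
  have b2 : x' 2 = 1 := by simp [x', a3.ne']
  have b3 : N (M *ᵥ x' - l • x') < (M *ᵥ x' - l • x') 2 := by
    have e : M *ᵥ x' - l • x' = ((M *ᵥ x) 2)⁻¹ • (M *ᵥ (M *ᵥ x - l • x)) := by
      simp only [x', mulVec_smul, mulVec_sub, smul_sub, smul_comm l]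
    rw [e, g.smul _ (by positivity), Pi.smul_apply, smul_eq_mul]
    exact mul_lt_mul_of_pos_left a1 (by positivity)
  have ho : IsOpen {t : ℝ | N (M *ᵥ x' - t • x') < (M *ᵥ x' - t • x') 2} :=
    isOpen_lt (g.cont.comp (by fun_prop)) (by fun_prop)
  obtain ⟨ε, hε, hball⟩ := Metric.isOpen_iff.1 ho l b3
  have b4 := hball (show l + ε / 2 ∈ Metric.ball l ε by
    rw [Metric.mem_ball, Real.dist_eq, abs_lt]; constructor <;> linarith)
  have := hmax (mem (l + ε / 2) x' (by linarith) b1 b2 b4.le)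
  simp only [mem_ofPred_eq] at this
  linarith

/-- Perron-Frobenius for the cone. -/
lemma IsGauge.perron (g : IsGauge N) {M : Mat} (h : PresO N M) :
    ∃ x : V, N x ≤ x 2 ∧ x 2 = 1 ∧ ∃ l : ℝ, M *ᵥ x = l • x := by
  let P : Mat := !![0, 0, 0; 0, 0, 0; 0, 0, 1]
  have hP : ∀ y : V, P *ᵥ y = y 2 • e2 := by
    intro y
    ext i
    fin_cases i <;> simp [P, mulVec, dotProduct, Fin.sum_univ_three]
  have key : ∀ k : ℕ, ∃ x : V, N x ≤ x 2 ∧ x 2 = 1 ∧
      ∃ l : ℝ, (M + (1 / ((k : ℝ) + 1)) • P) *ᵥ x = l • x := by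
    intro k
    refine g.perron_strict fun y hy hy0 => ?_
    rw [add_mulVec, smul_mulVec, hP, smul_smul, g.add_e2]
    have := g.snd_pos hy hy0
    have h2 : 0 < 1 / ((k : ℝ) + 1) * y 2 := by positivity
    simp only [Pi.add_apply, Pi.smul_apply, e2_2, smul_eq_mul, mul_one]
    linarith [h y hy]
  choose x hx1 hx2 l hl using key
  obtain ⟨x₀, hx₀, φ, hφ, hlim⟩ := g.isCompact_base.tendsto_subseq (x := x)
    fun k => ⟨hx1 k, hx2 k⟩
  refine ⟨x₀, hx₀.1, hx₀.2, (M *ᵥ x₀) 2, ?_⟩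
  have t0 : Tendsto (fun k => 1 / ((φ k : ℝ) + 1)) atTop (𝓝 0) :=
    tendsto_one_div_add_atTop_nhds_zero_nat.comp hφ.tendsto_atTop
  have t1 : Tendsto (fun k => (M + (1 / ((φ k : ℝ) + 1)) • P) *ᵥ x (φ k)) atTop
      (𝓝 (M *ᵥ x₀)) := by
    have c : Continuous fun p : ℝ × V => (M + p.1 • P) *ᵥ p.2 := by fun_prop
    simpa [Function.comp_def] using (c.tendsto (0, x₀)).comp (t0.prodMk_nhds hlim)
  have t2 : Tendsto (fun k => l (φ k)) atTop (𝓝 ((M *ᵥ x₀) 2)) := by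
    refine (((continuous_apply 2).tendsto _).comp t1).congr fun k => ?_
    simp only [Function.comp, hl, Pi.smul_apply, hx2, smul_eq_mul, mul_one]
  refine tendsto_nhds_unique t1 ?_
  exact (t2.smul hlim).congr fun k => (hl _).symm

lemma IsGauge.bounded_pow (g : IsGauge N) {M : Mat} (h : PresO N M) {v : V} (hv : N v < v 2)
    (hM : M *ᵥ v = v) (x : V) : ∃ C, ∀ k : ℕ, ‖(M ^ k) *ᵥ x‖ ≤ C := by
  obtain ⟨C, hC0, hC⟩ := g.norm_le
  obtain ⟨c, hc0, hc1, hc2⟩ : ∃ c : ℝ, 0 ≤ c ∧ N x - x 2 ≤ c * (v 2 - N v) ∧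
      N (-x) + x 2 ≤ c * (v 2 - N v) := by
    have hd : 0 < v 2 - N v := by linarith
    refine ⟨(|N x - x 2| + |N (-x) + x 2|) / (v 2 - N v), by positivity, ?_, ?_⟩
    · rw [div_mul_cancel₀ _ hd.ne']
      linarith [le_abs_self (N x - x 2), abs_nonneg (N (-x) + x 2)]
    · rw [div_mul_cancel₀ _ hd.ne']
      linarith [le_abs_self (N (-x) + x 2), abs_nonneg (N x - x 2)]
  have h1 : N (c • v + x) ≤ (c • v + x) 2 := by
    have := g.add (c • v) x
    rw [g.smul c hc0] at this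
    simp only [Pi.add_apply, Pi.smul_apply, smul_eq_mul]
    linarith
  have h2 : N (c • v + -x) ≤ (c • v + -x) 2 := by
    have := g.add (c • v) (-x)
    rw [g.smul c hc0] at this
    simp only [Pi.add_apply, Pi.smul_apply, smul_eq_mul, Pi.neg_apply]
    linarith
  have hk : ∀ k : ℕ, (M ^ k) *ᵥ v = v := by
    intro k
    induction k with
    | zero => simp
    | succ k ih => rw [pow_succ, ← mulVec_mulVec, hM, ih]
  refine ⟨C * (2 * (c * v 2)) + ‖c • v‖, fun k => ?_⟩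
  have a1 := h.pow k _ h1
  have a2 := h.pow k _ h2
  rw [mulVec_add, mulVec_smul, hk] at a1
  rw [mulVec_add, mulVec_smul, hk, mulVec_neg] at a2
  have a3 := hC _ a1
  have a4 := (g.nonneg _).trans a2
  simp only [Pi.add_apply, Pi.smul_apply, smul_eq_mul, Pi.neg_apply] at a3 a4
  have a5 : ‖(M ^ k) *ᵥ x‖ ≤ ‖c • v + (M ^ k) *ᵥ x‖ + ‖c • v‖ := by
    simpa using norm_sub_le (c • v + (M ^ k) *ᵥ x) (c • v)
  have a6 : C * (c * v 2 + ((M ^ k) *ᵥ x) 2) ≤ C * (2 * (c * v 2)) :=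
    mul_le_mul_of_nonneg_left (by linarith) hC0.le
  linarith

lemma le_one_of_pow_bounded {a C : ℝ} (h : ∀ k : ℕ, a ^ k ≤ C) : a ≤ 1 := by
  by_contra hc
  obtain ⟨k, hk⟩ := ((tendsto_pow_atTop_atTop_of_one_lt (not_le.1 hc)).eventually_gt_atTop C).exists
  exact absurd (h k) (not_le.2 hk)

lemma IsGauge.det_le_one (g : IsGauge N) {M : Mat} (h : PresO N M) {v : V} (hv : N v < v 2)
    (hM : M *ᵥ v = v) : M.det ≤ 1 := by
  choose C hC using fun j : Fin 3 => g.bounded_pow h hv hM (Pi.single j 1)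
  refine le_one_of_pow_bounded (C := (Fintype.card (Fin 3)).factorial •
    (|C 0| + |C 1| + |C 2|) ^ Fintype.card (Fin 3)) fun k => ?_
  rw [← det_pow]
  refine (le_abs_self _).trans (Matrix.det_le (abv := AbsoluteValue.abs) fun i j => ?_)
  have h1 := (norm_le_pi_norm _ i).trans (hC j k)
  rw [mulVec_single_one, Real.norm_eq_abs] at h1
  have h2 : C j ≤ |C 0| + |C 1| + |C 2| := by
    have := le_abs_self (C j)
    fin_cases j <;> simp at this ⊢ <;> linarith [abs_nonneg (C 0), abs_nonneg (C 1), abs_nonneg (C 2)]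
  exact h1.trans h2

/-- A determinant one automorphism without boundary eigenvector fixes an interior vector. -/
lemma IsGauge.exists_fixed (g : IsGauge N) {M M' : Mat} (hMM : M' * M = 1) (h : PresO N M)
    (h' : PresO N M') (hdet : M.det = 1)
    (hno : ∀ b : V, N b = b 2 → b ≠ 0 → ∀ μ : ℝ, M *ᵥ b ≠ μ • b) :
    ∃ v : V, N v < v 2 ∧ M *ᵥ v = v := by
  obtain ⟨v, hv1, hv2, l, hl⟩ := g.perron h
  have hv0 : v ≠ 0 := by
    rintro rfl
    simp at hv2
  have hv : N v < v 2 := lt_of_le_of_ne hv1 fun e => hno v e hv0 l hl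
  have e1 : v = l • (M' *ᵥ v) := by
    rw [← mulVec_smul, ← hl, mulVec_mulVec, hMM, one_mulVec]
  have hl0 : l ≠ 0 := by
    rintro rfl
    exact hv0 (by simpa using e1)
  have hl1 : 0 < l := by
    have := (g.nonneg _).trans (h v hv1)
    rw [hl, Pi.smul_apply, hv2, smul_eq_mul, mul_one] at this
    exact lt_of_le_of_ne this hl0.symm
  have d1 := g.det_le_one (h.smul g (inv_pos.2 hl1).le) hv (by
    rw [smul_mulVec, hl, smul_smul, inv_mul_cancel₀ hl0, one_smul])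
  have d2 := g.det_le_one (h'.smul g hl1.le) hv (by rw [smul_mulVec, ← e1])
  have hdet' : M'.det = 1 := by
    have := congrArg det hMM
    rwa [det_mul, hdet, mul_one, det_one] at this
  rw [det_smul, hdet, mul_one] at d1
  rw [det_smul, hdet', mul_one] at d2
  simp only [Fintype.card_fin] at d1 d2
  have a1 : l ≤ 1 := (pow_le_one_iff_of_nonneg hl1.le (by norm_num)).1 d2
  have a2 : l⁻¹ ≤ 1 := (pow_le_one_iff_of_nonneg (inv_pos.2 hl1).le (by norm_num)).1 d1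
  have a3 : l = 1 := le_antisymm a1 ((inv_le_one₀ hl1).1 a2)
  exact ⟨v, hv, by rw [hl, a3, one_smul]⟩

end Pool.Agent.Lib.MP_2f98a8_gt
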