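import Mathlib

/-!
Closed transitive groupoids of units of a finite dimensional Banach algebra: the Lie algebras of
the vertex groups.
-/

namespace Pool.Agent.Lib.MP_2f98a8_gt

open Set Filter Topology NormedSpace

variable {A : Type*} [NormedRing A] [NormedAlgebra ℝ A] [NormedAlgebra ℚ A] [CompleteSpace A]
  [NormOneClass A]

omit [NormedAlgebra ℝ A] [NormedAlgebra ℚ A] [CompleteSpace A] in
lemma norm_pow_sub_pow_le (u v : A) (M : ℝ) (hM : 1 ≤ M) (hu : ‖u‖ ≤ M) (hv : ‖v‖ ≤ M) (m : ℕ) :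
    ‖u ^ m - v ^ m‖ ≤ m * ‖u - v‖ * M ^ m := by
  induction m with
  | zero => simp
  | succ m ih =>
    have e : u ^ (m + 1) - v ^ (m + 1) = u * (u ^ m - v ^ m) + (u - v) * v ^ m := by
      rw [pow_succ', pow_succ']; noncomm_ring
    have h1 : ‖v ^ m‖ ≤ M ^ m := (norm_pow_le v m).trans (pow_le_pow_left₀ (norm_nonneg _) hv m)
    have h2 : M ^ m ≤ M ^ (m + 1) := pow_le_pow_right₀ hM (Nat.le_succ m)
    have h0 : 0 ≤ M := by linarith
    calc ‖u ^ (m + 1) - v ^ (m + 1)‖ ≤ ‖u‖ * ‖u ^ m - v ^ m‖ + ‖u - v‖ * ‖v ^ m‖ := by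
          rw [e]; exact (norm_add_le _ _).trans (add_le_add (norm_mul_le _ _) (norm_mul_le _ _))
      _ ≤ M * (m * ‖u - v‖ * M ^ m) + ‖u - v‖ * M ^ (m + 1) := by
          gcongr
          exact h1.trans h2
      _ = _ := by push_cast; ring

/-- If `m k • a k → X` and `a k → 0` then `(1 + a k) ^ m k → exp X`. -/
lemma tendsto_pow_exp {a : ℕ → A} {m : ℕ → ℕ} {X : A} (ha : Tendsto a atTop (𝓝 0))
    (hm : Tendsto (fun k => (m k : ℝ) • a k) atTop (𝓝 X)) :
    Tendsto (fun k => (1 + a k) ^ m k) atTop (𝓝 (exp X)) := by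
  have h1 : Tendsto (fun k => exp (a k) ^ m k) atTop (𝓝 (exp X)) := by
    have := (exp_continuous.tendsto X).comp hm
    refine this.congr fun k => ?_
    simp only [Function.comp, Nat.cast_smul_eq_nsmul, exp_nsmul]
  have h2 : (fun k => exp (a k) - 1 - a k) =o[atTop] a := by
    have := (hasFDerivAt_exp_zero (𝕂 := ℝ) (𝔸 := A)).isLittleO.comp_tendsto ha
    simpa [Function.comp_def] using this
  obtain ⟨C, hC⟩ : ∃ C, ∀ k, (m k : ℝ) * ‖a k‖ ≤ C := by
    obtain ⟨C, hC⟩ := hm.norm.bddAbove_range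
    refine ⟨C, fun k => ?_⟩
    have := hC ⟨k, rfl⟩
    simpa [norm_smul] using this
  have h3 : Tendsto (fun k => (1 + a k) ^ m k - exp (a k) ^ m k) atTop (𝓝 0) := by
    rw [NormedAddGroup.tendsto_nhds_zero]
    intro ε hε
    have hC0 : 0 ≤ C := le_trans (by positivity) (hC 0)
    have hpos : 0 < ε / (2 * ((C + 1) * Real.exp (2 * C))) := by positivity
    filter_upwards [h2.bound hpos, h2.bound one_pos] with k hk hk1
    set η := ε / (2 * ((C + 1) * Real.exp (2 * C))) with hη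
    have hM : 1 ≤ Real.exp (2 * ‖a k‖) := Real.one_le_exp (by positivity)
    have hb : 1 + 2 * ‖a k‖ ≤ Real.exp (2 * ‖a k‖) := by
      linarith [Real.add_one_le_exp (2 * ‖a k‖)]
    have hu : ‖1 + a k‖ ≤ Real.exp (2 * ‖a k‖) := by
      refine (norm_add_le _ _).trans ?_
      rw [norm_one]; linarith [norm_nonneg (a k)]
    have hv : ‖exp (a k)‖ ≤ Real.exp (2 * ‖a k‖) := by
      have e : exp (a k) = (exp (a k) - 1 - a k) + (1 + a k) := by abel
      rw [e]
      refine (norm_add_le _ _).trans ?_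
      have := norm_add_le (1 : A) (a k)
      rw [norm_one] at this
      linarith
    have h4 := norm_pow_sub_pow_le _ _ _ hM hu hv (m k)
    have h5 : ‖1 + a k - exp (a k)‖ ≤ η * ‖a k‖ := by
      rw [← norm_neg]
      have e : -(1 + a k - exp (a k)) = exp (a k) - 1 - a k := by abel
      rwa [e]
    have h6 : Real.exp (2 * ‖a k‖) ^ m k ≤ Real.exp (2 * C) := by
      rw [← Real.exp_nat_mul]
      exact Real.exp_le_exp.2 (by nlinarith [hC k])
    calc ‖(1 + a k) ^ m k - exp (a k) ^ m k‖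
        ≤ m k * ‖1 + a k - exp (a k)‖ * Real.exp (2 * ‖a k‖) ^ m k := h4
      _ ≤ m k * (η * ‖a k‖) * Real.exp (2 * C) := by gcongr
      _ = η * (m k * ‖a k‖) * Real.exp (2 * C) := by ring
      _ ≤ η * (C + 1) * Real.exp (2 * C) := by gcongr; linarith [hC k]
      _ = ε / 2 := by rw [hη]; field_simp
      _ < ε := by linarith
  simpa using h3.add h1

/-- A closed transitive groupoid on `Q` whose arrows are units of `A`. -/
structure IsGroupoid {Q : Type*} [TopologicalSpace Q] (R : A → Q → Q → Prop) : Prop where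
  unit : ∀ {h x y}, R h x y → IsUnit h
  one : ∀ x, R 1 x x
  mul : ∀ {h g x y z}, R h y z → R g x y → R (h * g) x z
  inv : ∀ {h x y}, R h x y → R (Ring.inverse h) y x
  closed : ∀ {hk : ℕ → A} {xk yk : ℕ → Q} {h x y}, Tendsto hk atTop (𝓝 h) → IsUnit h →
    Tendsto xk atTop (𝓝 x) → Tendsto yk atTop (𝓝 y) → (∀ᶠ k in atTop, R (hk k) (xk k) (yk k)) →
    R h x y
  trans : ∀ x y, ∃ h, R h x y

variable {Q : Type*} [TopologicalSpace Q] {R : A → Q → Q → Prop}

omit [NormedAlgebra ℝ A] [NormedAlgebra ℚ A] [CompleteSpace A] [NormOneClass A] in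
lemma IsGroupoid.pow (G : IsGroupoid R) {h : A} {x : Q} (hh : R h x x) (m : ℕ) :
    R (h ^ m) x x := by
  induction m with
  | zero => simpa using G.one x
  | succ m ih => rw [pow_succ]; exact G.mul ih hh

/-- The direction lemma. -/
lemma IsGroupoid.exp_of_tendsto (G : IsGroupoid R) {a : ℕ → A} {s : ℕ → ℝ} {xk : ℕ → Q} {z : Q}
    {X : A} (hx : Tendsto xk atTop (𝓝 z)) (hs : ∀ k, 0 < s k) (hs0 : Tendsto s atTop (𝓝 0))
    (ha : Tendsto (fun k => (s k)⁻¹ • a k) atTop (𝓝 X))
    (hR : ∀ᶠ k in atTop, R (1 + a k) (xk k) (xk k)) (t : ℝ) : R (exp (t • X)) z z := by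
  have pos : ∀ t : ℝ, 0 ≤ t → R (exp (t • X)) z z := by
    intro t ht
    have ha0 : Tendsto a atTop (𝓝 0) := by
      have := hs0.smul ha
      simp only [zero_smul] at this
      refine this.congr fun k => ?_
      rw [smul_smul, mul_inv_cancel₀ (hs k).ne', one_smul]
    have hm1 : Tendsto (fun k => (⌊t / s k⌋₊ : ℝ) * s k) atTop (𝓝 t) := by
      have hl : Tendsto (fun k => t - s k) atTop (𝓝 t) := by
        simpa using tendsto_const_nhds.sub hs0
      refine tendsto_of_tendsto_of_tendsto_of_le_of_le hl tendsto_const_nhds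
        (fun k => ?_) (fun k => ?_)
      · have h1 := Nat.lt_floor_add_one (t / s k)
        rw [div_lt_iff₀ (hs k)] at h1
        show t - s k ≤ _
        linarith
      · have h1 := Nat.floor_le (div_nonneg ht (hs k).le)
        rwa [le_div_iff₀ (hs k)] at h1
    have hm : Tendsto (fun k => (⌊t / s k⌋₊ : ℝ) • a k) atTop (𝓝 (t • X)) := by
      refine (hm1.smul ha).congr fun k => ?_
      rw [smul_smul, mul_assoc, mul_inv_cancel₀ (hs k).ne', mul_one]
    refine G.closed (tendsto_pow_exp ha0 hm) (isUnit_exp _) hx hx ?_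
    filter_upwards [hR] with k hk using G.pow hk _
  rcases le_total 0 t with ht | ht
  · exact pos t ht
  · have := G.inv (pos (-t) (by linarith))
    rwa [Ring.inverse_exp, neg_smul, neg_neg] at this

/-- The Lie algebra of the vertex group at `z`. -/
def IsGroupoid.lie (G : IsGroupoid R) (z : Q) : Submodule ℝ A where
  carrier := {X | ∀ t : ℝ, R (exp (t • X)) z z}
  zero_mem' := fun t => by simpa using G.one z
  smul_mem' := fun c X hX t => by simpa [smul_smul] using hX (t * c)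
  add_mem' := by
    intro X Y hX hY
    have hd : HasDerivAt (fun t : ℝ => exp (t • X) * exp (t • Y)) (X + Y) 0 := by
      have := (hasDerivAt_exp_smul_const X (0 : ℝ)).fun_mul (hasDerivAt_exp_smul_const Y (0 : ℝ))
      simpa using this
    have hs0 : Tendsto (fun k : ℕ => 1 / ((k : ℝ) + 1)) atTop (𝓝 0) :=
      tendsto_one_div_add_atTop_nhds_zero_nat
    have hs1 : Tendsto (fun k : ℕ => 1 / ((k : ℝ) + 1)) atTop (𝓝[≠] 0) :=
      tendsto_nhdsWithin_iff.2 ⟨hs0, Eventually.of_forall fun k => by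
        simp only [mem_compl_iff, mem_singleton_iff]; positivity⟩
    have h1 := (hasDerivAt_iff_tendsto_slope_zero.1 hd).comp hs1
    refine G.exp_of_tendsto (a := fun k : ℕ =>
      exp ((1 / ((k : ℝ) + 1)) • X) * exp ((1 / ((k : ℝ) + 1)) • Y) - 1)
      (xk := fun _ => z) tendsto_const_nhds (fun k => by positivity) hs0 ?_ ?_
    · simpa [Function.comp_def] using h1
    · refine Eventually.of_forall fun k => ?_
      simpa using G.mul (hX _) (hY _)

lemma IsGroupoid.mem_lie (G : IsGroupoid R) {z : Q} {X : A} :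
    X ∈ G.lie z ↔ ∀ t : ℝ, R (exp (t • X)) z z := Iff.rfl

lemma IsGroupoid.mem_lie_of_tendsto (G : IsGroupoid R) {Xk : ℕ → A} {xk : ℕ → Q} {X : A} {z : Q}
    (hX : Tendsto Xk atTop (𝓝 X)) (hx : Tendsto xk atTop (𝓝 z))
    (h : ∀ k, Xk k ∈ G.lie (xk k)) : X ∈ G.lie z := fun t =>
  G.closed ((exp_continuous.tendsto _).comp (hX.const_smul t)) (isUnit_exp _) hx hx
    (Eventually.of_forall fun k => h k t)

lemma IsGroupoid.finrank_lie_le [FiniteDimensional ℝ A] (G : IsGroupoid R) (z x : Q) :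
    Module.finrank ℝ (G.lie z) ≤ Module.finrank ℝ (G.lie x) := by
  obtain ⟨g, hg⟩ := G.trans z x
  obtain ⟨u, rfl⟩ := G.unit hg
  have hg' := G.inv hg
  rw [Ring.inverse_unit] at hg'
  let φ : A →ₗ[ℝ] A := (LinearMap.mulLeft ℝ (u : A)).comp (LinearMap.mulRight ℝ (↑u⁻¹ : A))
  have hφ : ∀ X, φ X = u * X * ↑u⁻¹ := fun X => by simp [φ, mul_assoc]
  have hmem : ∀ X ∈ G.lie z, φ X ∈ G.lie x := by
    intro X hX t
    rw [← map_smul, hφ, exp_units_conj]
    exact G.mul (G.mul hg (hX t)) hg'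
  refine LinearMap.finrank_le_finrank_of_injective (f := φ.restrict hmem) ?_
  intro X Y h
  have h1 : φ X = φ Y := congrArg Subtype.val h
  rw [hφ, hφ] at h1
  exact Subtype.ext ((Units.mul_right_inj u).1 ((Units.mul_left_inj u⁻¹).1 h1))

end Pool.Agent.Lib.MP_2f98a8_gt
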