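import Mathlib

/-!
Two elementary facts on the real line: Sierpinski's theorem on countable closed partitions and
an induction principle on a compact interval.
-/

namespace Pool.Agent.Lib.MP_2f98a8_gt

open Set Filter Topology

/-- Sierpinski: a map from the line to a countable set with closed fibres is constant. -/
theorem const_of_isClosed_fiber {ι : Type*} [Countable ι] (f : ℝ → ι)
    (hf : ∀ i, IsClosed (f ⁻¹' {i})) (x y : ℝ) : f x = f y := by
  let W : Set ℝ := {t | ∀ᶠ s in 𝓝 t, f s = f t}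
  have hWo : IsOpen W := by
    rw [isOpen_iff_eventually]
    intro t ht
    filter_upwards [eventually_eventually_nhds.2 ht] with s hs
    have h1 : f s = f t := hs.self_of_nhds
    filter_upwards [hs] with r hr
    rw [hr, h1]
  by_cases hW : Wᶜ = ∅
  · have hlc : IsLocallyConstant f := by
      rw [IsLocallyConstant.iff_eventually_eq]
      intro t
      have : t ∈ W := by
        by_contra h
        exact (hW ▸ h : t ∈ (∅ : Set ℝ))
      exact this
    exact hlc.apply_eq_of_preconnectedSpace x y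
  exfalso
  have hZ : IsClosed Wᶜ := hWo.isClosed_compl
  have : CompleteSpace (Wᶜ : Set ℝ) := hZ.completeSpace_coe
  have : Nonempty (Wᶜ : Set ℝ) := (nonempty_iff_ne_empty.2 hW).to_subtype
  obtain ⟨i, z, hz⟩ := nonempty_interior_of_iUnion_of_closed
    (X := (Wᶜ : Set ℝ)) (f := fun i => Subtype.val ⁻¹' (f ⁻¹' {i}))
    (fun i => (hf i).preimage continuous_subtype_val) (by
      ext t; simp)
  obtain ⟨ε, hε, hball⟩ := Metric.mem_nhds_iff.1 (mem_interior_iff_mem_nhds.1 hz)
  have hzi : f z = i := hball (Metric.mem_ball_self hε)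
  have key : ∀ t ∈ Metric.ball (z : ℝ) ε, t ∉ W → f t = i := fun t ht htW =>
    hball (show (⟨t, htW⟩ : (Wᶜ : Set ℝ)) ∈ Metric.ball z ε from ht)
  apply z.2
  show ∀ᶠ s in 𝓝 (z : ℝ), f s = f z
  filter_upwards [Metric.ball_mem_nhds (z : ℝ) hε] with s hs
  by_contra hne
  have hpre : IsPreconnected (Metric.ball (z : ℝ) ε) := (convex_ball _ _).isPreconnected
  have hu : IsOpen (W ∩ f ⁻¹' {f s}) := by
    rw [isOpen_iff_eventually]
    rintro t ⟨ht1, ht2⟩
    filter_upwards [hWo.mem_nhds ht1, ht1] with r hr1 hr2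
    exact ⟨hr1, by simpa [hr2] using ht2⟩
  have hsW : s ∈ W := by
    by_contra h
    exact hne ((key s hs h).trans hzi.symm)
  have hsub := hpre.subset_of_closure_inter_subset hu ⟨s, hs, hsW, rfl⟩ (by
    rintro t ⟨ht1, ht2⟩
    have h1 : t ∈ f ⁻¹' {f s} := (hf (f s)).closure_subset_iff.2 inter_subset_right ht1
    refine ⟨?_, h1⟩
    by_contra h
    have h2 : f t = f s := h1
    exact hne (h2.symm.trans ((key t ht2 h).trans hzi.symm)))
  exact z.2 (hsub (Metric.mem_ball_self hε)).1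

/-- Induction on a compact interval from a local statement and concatenation. -/
theorem interval_induction (P : ℝ → ℝ → Prop) (lo hi : ℝ) (hle : lo ≤ hi)
    (hloc : ∀ t ∈ Icc lo hi, ∃ ε > 0, ∀ a b, t - ε ≤ a → a ≤ b → b ≤ t + ε → P a b)
    (hcat : ∀ a b c, a ≤ b → b ≤ c → P a b → P b c → P a c) : P lo hi := by
  let S : Set ℝ := {t | t ∈ Icc lo hi ∧ P lo t}
  have hlo : lo ∈ S := by
    obtain ⟨ε, hε, h⟩ := hloc lo ⟨le_rfl, hle⟩
    exact ⟨⟨le_rfl, hle⟩, h lo lo (by linarith) le_rfl (by linarith)⟩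
  have hb : BddAbove S := ⟨hi, fun t ht => ht.1.2⟩
  have h1 : lo ≤ sSup S := le_csSup hb hlo
  have h2 : sSup S ≤ hi := csSup_le ⟨lo, hlo⟩ fun t ht => ht.1.2
  obtain ⟨ε, hε, h⟩ := hloc (sSup S) ⟨h1, h2⟩
  obtain ⟨t, ht, htl⟩ := exists_lt_of_lt_csSup ⟨lo, hlo⟩ (show sSup S - ε < sSup S by linarith)
  have ht2 : t ≤ sSup S := le_csSup hb ht
  have h3 : P lo (min (sSup S + ε) hi) := by
    refine hcat lo t _ ht.1.1 (le_min (by linarith) ht.1.2) ht.2 ?_
    exact h t _ htl.le (le_min (by linarith) ht.1.2) (min_le_left _ _)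
  have h4 : min (sSup S + ε) hi ∈ S :=
    ⟨⟨le_min (by linarith) hle, min_le_right _ _⟩, h3⟩
  have h5 := le_csSup hb h4
  rcases le_total (sSup S + ε) hi with h6 | h6
  · rw [min_eq_left h6] at h5
    linarith
  · rwa [min_eq_right h6] at h3

end Pool.Agent.Lib.MP_2f98a8_gt
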