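import Mathlib
import Pool.Agent.Lib.MP_2f98a8_gt.Lie
import Pool.Agent.Lib.MP_2f98a8_gt.Topo

/-!
Local continuous sections of a closed transitive groupoid over a real normed space.
-/

namespace Pool.Agent.Lib.MP_2f98a8_gt

open Set Filter Topology NormedSpace

variable {A : Type*} [NormedRing A] [NormedAlgebra ℝ A] [NormedAlgebra ℚ A] [CompleteSpace A]
  [NormOneClass A] [FiniteDimensional ℝ A]

omit [NormedAlgebra ℝ A] [NormedAlgebra ℚ A] [NormOneClass A] [FiniteDimensional ℝ A] in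
lemma isUnit_of_norm_sub_one_lt {h : A} (hh : ‖h - 1‖ < 1) : IsUnit h := by
  have := isUnit_one_sub_of_norm_lt_one (x := 1 - h) (by rwa [norm_sub_rev])
  simpa using this

omit [NormedAlgebra ℝ A] [NormedAlgebra ℚ A] [NormOneClass A] [FiniteDimensional ℝ A] in
lemma isUnit_one_add {Y : A} (hY : ‖Y‖ < 1) : IsUnit (1 + Y) :=
  isUnit_of_norm_sub_one_lt (by simpa using hY)

omit [NormedAlgebra ℝ A] [NormedAlgebra ℚ A] [NormOneClass A] [FiniteDimensional ℝ A] in
lemma tendsto_inverse {ι : Type*} {l : Filter ι} {f : ι → A} {h : A} (hu : IsUnit h)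
    (hf : Tendsto f l (𝓝 h)) :
    Tendsto (fun k => Ring.inverse (f k)) l (𝓝 (Ring.inverse h)) := by
  obtain ⟨u, rfl⟩ := hu
  exact (NormedRing.inverse_continuousAt u).tendsto.comp hf

omit [NormedAlgebra ℚ A] [CompleteSpace A] [NormOneClass A] in
lemma subseq_ball (M : Submodule ℝ A) {Y : ℕ → A} {r : ℝ} (hM : ∀ k, Y k ∈ M)
    (hr : ∀ k, ‖Y k‖ ≤ r) :
    ∃ Y₀ ∈ M, ‖Y₀‖ ≤ r ∧ ∃ φ : ℕ → ℕ, StrictMono φ ∧ Tendsto (Y ∘ φ) atTop (𝓝 Y₀) := by
  have : ProperSpace A := FiniteDimensional.proper ℝ A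
  have hc : IsCompact (Metric.closedBall (0 : A) r ∩ M) :=
    (isCompact_closedBall _ _).inter_right M.closed_of_finiteDimensional
  obtain ⟨Y₀, hY₀, φ, hφ, h⟩ := hc.tendsto_subseq (x := Y)
    (fun k => ⟨by simpa using hr k, hM k⟩)
  exact ⟨Y₀, hY₀.2, by simpa using hY₀.1, φ, hφ, h⟩

variable {Q : Type*} [NormedAddCommGroup Q] [NormedSpace ℝ Q] {R : A → Q → Q → Prop}

omit [NormedSpace ℝ Q] in
lemma IsGroupoid.slice_inj (G : IsGroupoid R) (z : Q) {M : Submodule ℝ A}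
    (hM : IsCompl (G.lie z) M) :
    ∀ᶠ p : A × A in 𝓝 (0, 0), p.1 ∈ M → p.2 ∈ M →
      R (Ring.inverse (1 + p.2) * (1 + p.1)) z z → p.1 = p.2 := by
  by_contra hcon
  rw [not_eventually] at hcon
  obtain ⟨p, hp, hp'⟩ := exists_seq_forall_of_frequently hcon
  push Not at hp'
  have h1 : Tendsto (fun k => (p k).1) atTop (𝓝 0) := (continuous_fst.tendsto _).comp hp
  have h2 : Tendsto (fun k => (p k).2) atTop (𝓝 0) := (continuous_snd.tendsto _).comp hp
  let D : ℕ → A := fun k => (p k).1 - (p k).2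
  have hD : ∀ k, 0 < ‖D k‖ := fun k => norm_pos_iff.2 (sub_ne_zero.2 (hp' k).2.2.2)
  have hD0 : Tendsto (fun k => ‖D k‖) atTop (𝓝 0) := by simpa using (h1.sub h2).norm
  have hn : ∀ k, ‖(‖D k‖)⁻¹ • D k‖ = 1 := fun k => by
    rw [norm_smul, norm_inv, norm_norm, inv_mul_cancel₀ (hD k).ne']
  obtain ⟨U, hUM, -, φ, hφ, hU⟩ := subseq_ball M (Y := fun k => (‖D k‖)⁻¹ • D k) (r := 1)
    (fun k => M.smul_mem _ (M.sub_mem (hp' k).1 (hp' k).2.1)) (fun k => (hn k).le)
  have hU1 : ‖U‖ = 1 := by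
    have := hU.norm
    simp only [Function.comp_def, hn] at this
    exact tendsto_nhds_unique this tendsto_const_nhds
  have hinv : Tendsto (fun k => Ring.inverse (1 + (p (φ k)).2)) atTop (𝓝 1) := by
    have : Tendsto (fun k => 1 + (p (φ k)).2) atTop (𝓝 1) := by
      simpa using (h2.comp hφ.tendsto_atTop).const_add 1
    simpa using tendsto_inverse isUnit_one this
  have hUl : U ∈ G.lie z := by
    refine G.exp_of_tendsto (a := fun k => Ring.inverse (1 + (p (φ k)).2) * D (φ k))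
      (s := fun k => ‖D (φ k)‖) (xk := fun _ => z) tendsto_const_nhds (fun k => hD _)
      (hD0.comp hφ.tendsto_atTop) ?_ ?_
    · have := hinv.mul hU
      simpa [Function.comp_def] using this
    · have h3 : ∀ᶠ k in atTop, ‖(p (φ k)).2‖ < 1 :=
        (h2.comp hφ.tendsto_atTop).norm.eventually (gt_mem_nhds (by simp))
      filter_upwards [h3] with k hk
      have e : 1 + Ring.inverse (1 + (p (φ k)).2) * D (φ k) =
          Ring.inverse (1 + (p (φ k)).2) * (1 + (p (φ k)).1) := by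
        have := Ring.inverse_mul_cancel _ (isUnit_one_add hk)
        calc _ = Ring.inverse (1 + (p (φ k)).2) * (1 + (p (φ k)).2) +
              Ring.inverse (1 + (p (φ k)).2) * D (φ k) := by rw [this]
          _ = _ := by simp only [D]; noncomm_ring
      rw [e]
      exact (hp' _).2.2.1
  have : U = 0 := (Submodule.disjoint_def.1 hM.disjoint) U hUl hUM
  simp [this] at hU1

omit [NormedSpace ℝ Q] in
lemma IsGroupoid.transversal (G : IsGroupoid R) (z : Q) {M : Submodule ℝ A}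
    (hM : IsCompl (G.lie z) M) :
    ∀ᶠ p : A × Q in 𝓝 (0, z), ∀ X ∈ G.lie p.2, (1 + p.1) * X ∈ M → X = 0 := by
  by_contra hcon
  rw [not_eventually] at hcon
  obtain ⟨p, hp, hp'⟩ := exists_seq_forall_of_frequently hcon
  push Not at hp'
  choose X hX1 hX2 hX3 using hp'
  have h1 : Tendsto (fun k => (p k).1) atTop (𝓝 0) := (continuous_fst.tendsto _).comp hp
  have h2 : Tendsto (fun k => (p k).2) atTop (𝓝 z) := (continuous_snd.tendsto _).comp hp
  have hn : ∀ k, ‖(‖X k‖)⁻¹ • X k‖ = 1 := fun k => by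
    rw [norm_smul, norm_inv, norm_norm, inv_mul_cancel₀ (norm_pos_iff.2 (hX3 k)).ne']
  obtain ⟨U, -, -, φ, hφ, hU⟩ := subseq_ball ⊤ (Y := fun k => (‖X k‖)⁻¹ • X k) (r := 1)
    (fun k => trivial) (fun k => (hn k).le)
  have hU1 : ‖U‖ = 1 := by
    have := hU.norm
    simp only [Function.comp_def, hn] at this
    exact tendsto_nhds_unique this tendsto_const_nhds
  have hUl : U ∈ G.lie z := G.mem_lie_of_tendsto hU (h2.comp hφ.tendsto_atTop)
    fun k => Submodule.smul_mem _ _ (hX1 _)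
  have hUM : U ∈ M := by
    have h3 : Tendsto (fun k => (1 + (p (φ k)).1) * ((‖X (φ k)‖)⁻¹ • X (φ k))) atTop (𝓝 U) := by
      have := ((h1.comp hφ.tendsto_atTop).const_add 1).mul hU
      simpa [Function.comp_def] using this
    refine M.closed_of_finiteDimensional.mem_of_tendsto h3 (Eventually.of_forall fun k => ?_)
    rw [mul_smul_comm]
    exact M.smul_mem _ (hX2 _)
  have : U = 0 := (Submodule.disjoint_def.1 hM.disjoint) U hUl hUM
  simp [this] at hU1

omit [NormedSpace ℝ Q] in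
lemma IsGroupoid.isOpen_slice (G : IsGroupoid R) (z x : Q) {M : Submodule ℝ A}
    (hM : IsCompl (G.lie z) M) {ε : ℝ} (hε : ε ≤ 1)
    (htr : ∀ Y : A, ‖Y‖ < ε → ∀ X ∈ G.lie x, (1 + Y) * X ∈ M → X = 0) :
    IsOpen {h : A | ∃ Y ∈ M, ‖Y‖ < ε ∧ R (Ring.inverse (1 + Y) * h) x x} := by
  rw [isOpen_iff_mem_nhds]
  rintro h₀ ⟨Y₀, hY₀M, hY₀, hR⟩
  have hu : IsUnit (1 + Y₀) := isUnit_one_add (hY₀.trans_le hε)
  set γ := Ring.inverse (1 + Y₀) * h₀ with hγ
  have hγu : IsUnit γ := G.unit hR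
  have : CompleteSpace M := FiniteDimensional.complete ℝ M
  have : CompleteSpace (G.lie x) := FiniteDimensional.complete ℝ _
  let i₁ : (M × G.lie x) →L[ℝ] A := M.subtypeL.comp (ContinuousLinearMap.fst ℝ _ _)
  let i₂ : (M × G.lie x) →L[ℝ] A := (G.lie x).subtypeL.comp (ContinuousLinearMap.snd ℝ _ _)
  let a : M × G.lie x := (⟨Y₀, hY₀M⟩, 0)
  have d1 : HasStrictFDerivAt (fun q => 1 + i₁ q) i₁ a := i₁.hasStrictFDerivAt.const_add 1
  have d2 : HasStrictFDerivAt (fun q => exp (i₂ q)) i₂ a := by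
    have h0 : i₂ a = 0 := by simp [i₂, a]
    have := (h0 ▸ hasStrictFDerivAt_exp_zero (𝕂 := ℝ) (𝔸 := A)).comp a i₂.hasStrictFDerivAt
    rw [ContinuousLinearMap.one_def, ContinuousLinearMap.id_comp] at this
    exact this
  have d3 := d1.fun_mul' d2
  have hsurj : ((1 + i₁ a) • i₂ + MulOpposite.op (exp (i₂ a)) • i₁).range = ⊤ := by
    have hinj : Function.Injective
        ((1 + i₁ a) • i₂ + MulOpposite.op (exp (i₂ a)) • i₁ : (M × G.lie x) →L[ℝ] A) := by
      rw [injective_iff_map_eq_zero]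
      rintro ⟨Y, X⟩ hq
      have hq' : (1 + Y₀) * (X : A) + Y = 0 := by simpa [i₁, i₂, a] using hq
      have hX : (X : A) = 0 := by
        refine htr Y₀ hY₀ X X.2 ?_
        rw [eq_neg_of_add_eq_zero_left hq']
        exact M.neg_mem Y.2
      rw [hX, mul_zero, zero_add] at hq'
      ext <;> simp [hX, hq']
    apply Submodule.eq_top_of_finrank_eq
    have e1 := LinearMap.finrank_range_of_inj (f := (((1 + i₁ a) • i₂ +
      MulOpposite.op (exp (i₂ a)) • i₁ : (M × G.lie x) →L[ℝ] A) : (M × G.lie x) →ₗ[ℝ] A)) hinj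
    rw [Module.finrank_prod] at e1
    have e2 := Submodule.finrank_add_eq_of_isCompl hM
    have e3 := G.finrank_lie_le z x
    have e4 := Submodule.finrank_le (((1 + i₁ a) • i₂ +
      MulOpposite.op (exp (i₂ a)) • i₁ : (M × G.lie x) →L[ℝ] A).range)
    omega
  have hmap := d3.map_nhds_eq_of_surj hsurj
  have hval : (1 + i₁ a) * exp (i₂ a) = 1 + Y₀ := by simp [i₁, i₂, a]
  rw [hval] at hmap
  have hW : {q : M × G.lie x | ‖i₁ q‖ < ε} ∈ 𝓝 a :=
    (isOpen_lt (by fun_prop) continuous_const).mem_nhds (by simpa [i₁, a] using hY₀)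
  have hW' := image_mem_map (m := fun q => (1 + i₁ q) * exp (i₂ q)) hW
  rw [hmap] at hW'
  have hc : Tendsto (fun h : A => h * Ring.inverse γ) (𝓝 h₀) (𝓝 (1 + Y₀)) := by
    have e : h₀ * Ring.inverse γ = 1 + Y₀ := by
      have : h₀ = (1 + Y₀) * γ := by
        rw [hγ, ← mul_assoc, Ring.mul_inverse_cancel _ hu, one_mul]
      rw [this, mul_assoc, Ring.mul_inverse_cancel _ hγu, mul_one]
    rw [← e]
    exact (continuous_id.mul continuous_const).tendsto h₀
  filter_upwards [hc hW'] with h hh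
  obtain ⟨q, hq, hqe⟩ := hh
  have hq' : ‖i₁ q‖ < ε := hq
  refine ⟨i₁ q, q.1.2, hq', ?_⟩
  have e : Ring.inverse (1 + i₁ q) * h = exp (i₂ q) * γ := by
    have h1 : h = (1 + i₁ q) * exp (i₂ q) * γ := by
      simp only at hqe
      rw [hqe, mul_assoc, Ring.inverse_mul_cancel _ hγu, mul_one]
    rw [h1, mul_assoc, ← mul_assoc (Ring.inverse _),
      Ring.inverse_mul_cancel _ (isUnit_one_add (hq'.trans_le hε)), one_mul]
  rw [e]
  refine G.mul ?_ hR
  have := q.2.2 1
  rw [one_smul] at this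
  exact this

omit [NormedSpace ℝ Q] [NormedAlgebra ℚ A] [NormOneClass A] in
lemma IsGroupoid.small (G : IsGroupoid R) (z : Q) {M : Submodule ℝ A} {ε : ℝ} (hε : ε < 1)
    (h1 : ∀ Y ∈ M, ‖Y‖ ≤ ε → R (1 + Y) z z → Y = 0) {η : ℝ} (hη : 0 < η) :
    ∀ᶠ p : A × Q × Q in 𝓝 (1, z, z), ∀ Y ∈ M, ‖Y‖ ≤ ε →
      R (Ring.inverse p.1 * (1 + Y)) p.2.1 p.2.2 → ‖Y‖ < η := by
  by_contra hcon
  rw [not_eventually] at hcon
  obtain ⟨p, hp, hp'⟩ := exists_seq_forall_of_frequently hcon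
  push Not at hp'
  choose Y hY1 hY2 hY3 hY4 using hp'
  obtain ⟨U, hUM, hUε, φ, hφ, hU⟩ := subseq_ball M hY1 hY2
  have hp2 := hp.comp hφ.tendsto_atTop
  have a1 : Tendsto (fun k => (p (φ k)).1) atTop (𝓝 1) := (continuous_fst.tendsto _).comp hp2
  have a2 : Tendsto (fun k => (p (φ k)).2.1) atTop (𝓝 z) :=
    (continuous_snd.fst.tendsto _).comp hp2
  have a3 : Tendsto (fun k => (p (φ k)).2.2) atTop (𝓝 z) :=
    (continuous_snd.snd.tendsto _).comp hp2
  have a4 : Tendsto (fun k => Ring.inverse (p (φ k)).1 * (1 + Y (φ k))) atTop (𝓝 (1 + U)) := by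
    simpa using (tendsto_inverse isUnit_one a1).mul (hU.const_add 1)
  have a5 := G.closed a4 (isUnit_one_add (hUε.trans_lt hε)) a2 a3
    (Eventually.of_forall fun k => hY3 _)
  have a6 : η ≤ ‖U‖ := ge_of_tendsto' hU.norm fun k => hY4 _
  rw [h1 U hUM hUε a5, norm_zero] at a6
  linarith

/-- Near `z`, every point is joined to `z` by an arrow `1 + Y` with `Y` small in the complement. -/
theorem IsGroupoid.local_section (G : IsGroupoid R) (z : Q) :
    ∃ r > 0, ∃ σ : Q → A, ContinuousOn σ (Metric.ball z r) ∧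
      ∀ x ∈ Metric.ball z r, R (σ x) z x := by
  classical
  have : ProperSpace A := FiniteDimensional.proper ℝ A
  obtain ⟨M, hM⟩ := (G.lie z).exists_isCompl
  obtain ⟨ε₁, hε₁, H1⟩ := Metric.eventually_nhds_iff.1 (G.slice_inj z hM)
  obtain ⟨ε₂, hε₂, H2⟩ := Metric.eventually_nhds_iff.1 (G.transversal z hM)
  obtain ⟨ε, hε, hεa, hεb, hεc⟩ : ∃ ε > 0, ε < ε₁ ∧ ε < ε₂ ∧ ε < 1 :=
    ⟨min (min ε₁ ε₂) 1 / 2, by positivity,
      by linarith [min_le_left (min ε₁ ε₂) 1, min_le_left ε₁ ε₂, lt_min (lt_min hε₁ hε₂) one_pos],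
      by linarith [min_le_left (min ε₁ ε₂) 1, min_le_right ε₁ ε₂, lt_min (lt_min hε₁ hε₂) one_pos],
      by linarith [min_le_right (min ε₁ ε₂) 1]⟩
  have inj : ∀ Y ∈ M, ∀ Y' ∈ M, ‖Y‖ ≤ ε → ‖Y'‖ ≤ ε →
      R (Ring.inverse (1 + Y') * (1 + Y)) z z → Y = Y' := by
    intro Y hY Y' hY' h1 h2 h3
    refine H1 (y := (Y, Y')) ?_ hY hY' h3
    simp only [Prod.dist_eq, dist_zero_right, max_lt_iff]
    constructor <;> linarith
  have inj0 : ∀ Y ∈ M, ‖Y‖ ≤ ε → R (1 + Y) z z → Y = 0 := fun Y hY h1 h2 =>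
    inj Y hY 0 M.zero_mem h1 (by simpa using hε.le) (by simpa using h2)
  obtain ⟨δ₁, hδ₁, H3⟩ := Metric.eventually_nhds_iff.1 (G.small z hεc inj0 hε)
  obtain ⟨δ, hδ, hδa, hδb, hδc⟩ : ∃ δ > 0, δ < δ₁ ∧ δ < ε₂ ∧ δ < 1 :=
    ⟨min (min δ₁ ε₂) 1 / 2, by positivity,
      by linarith [min_le_left (min δ₁ ε₂) 1, min_le_left δ₁ ε₂, lt_min (lt_min hδ₁ hε₂) one_pos],
      by linarith [min_le_left (min δ₁ ε₂) 1, min_le_right δ₁ ε₂, lt_min (lt_min hδ₁ hε₂) one_pos],
      by linarith [min_le_right (min δ₁ ε₂) 1]⟩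
  have C4 : ∀ x, dist x z < δ → ∀ h : A, ‖h - 1‖ ≤ δ →
      ∃ Y ∈ M, ‖Y‖ < ε ∧ R (Ring.inverse (1 + Y) * h) x x := by
    intro x hx
    have hop := G.isOpen_slice z x hM hεc.le (fun Y hY => H2 (y := (Y, x)) (by
      simp only [Prod.dist_eq, dist_zero_right, max_lt_iff]
      constructor <;> linarith))
    have hpre : IsPreconnected (Metric.closedBall (1 : A) δ) :=
      (convex_closedBall _ _).isPreconnected
    have hsub := hpre.subset_of_closure_inter_subset hop
      ⟨1, Metric.mem_closedBall_self hδ.le, 0, M.zero_mem, by simpa using hε,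
        by simpa using G.one x⟩ (by
      rintro h ⟨hh1, hh2⟩
      rw [mem_closedBall_iff_norm] at hh2
      obtain ⟨hk, hk1, hk2⟩ := mem_closure_iff_seq_limit.1 hh1
      choose Y hY1 hY2 hY3 using hk1
      obtain ⟨U, hUM, hUε, φ, hφ, hU⟩ := subseq_ball M hY1 (fun k => (hY2 k).le)
      have hUu : IsUnit (1 + U) := isUnit_one_add (hUε.trans_lt hεc)
      have hhu : IsUnit h := isUnit_of_norm_sub_one_lt (hh2.trans_lt hδc)
      have a1 : R (Ring.inverse (1 + U) * h) x x :=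
        G.closed ((tendsto_inverse hUu (hU.const_add 1)).mul (hk2.comp hφ.tendsto_atTop))
          (hUu.ringInverse.mul hhu) tendsto_const_nhds tendsto_const_nhds
          (Eventually.of_forall fun k => hY3 _)
      refine ⟨U, hUM, ?_, a1⟩
      have a2 := G.inv a1
      have e : Ring.inverse (Ring.inverse (1 + U) * h) = Ring.inverse h * (1 + U) := by
        obtain ⟨u, rfl⟩ := hhu
        obtain ⟨v, hv⟩ := hUu
        rw [← hv, Ring.inverse_unit, ← Units.val_mul, Ring.inverse_unit, Ring.inverse_unit,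
          ← Units.val_mul]
        simp
      rw [e] at a2
      refine H3 (y := (h, x, x)) ?_ U hUM hUε a2
      simp only [Prod.dist_eq, max_lt_iff]
      rw [dist_eq_norm]
      exact ⟨by linarith, by linarith, by linarith⟩)
    intro h hh
    exact hsub (mem_closedBall_iff_norm.2 hh)
  obtain ⟨η, hη, hηε, H4⟩ : ∃ η > 0, η ≤ ε ∧ ∀ a b : A, ‖a - 1‖ < η → ‖b - 1‖ < η →
      ‖a * b - 1‖ ≤ δ ∧ ‖Ring.inverse a * b - 1‖ ≤ δ := by
    have t1 : Tendsto (fun p : A × A => p.1 * p.2) (𝓝 (1, 1)) (𝓝 1) := by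
      simpa using (continuous_mul (M := A)).tendsto (1, 1)
    have t2 : Tendsto (fun p : A × A => Ring.inverse p.1 * p.2) (𝓝 (1, 1)) (𝓝 1) := by
      simpa using (tendsto_inverse isUnit_one ((continuous_fst (X := A) (Y := A)).tendsto
        (1, 1))).mul ((continuous_snd (X := A) (Y := A)).tendsto (1, 1))
    obtain ⟨η, hη, H⟩ := Metric.eventually_nhds_iff.1
      ((t1.eventually (Metric.closedBall_mem_nhds 1 hδ)).and
        (t2.eventually (Metric.closedBall_mem_nhds 1 hδ)))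
    refine ⟨min η ε, lt_min hη hε, min_le_right _ _, fun a b ha hb => ?_⟩
    have := H (y := (a, b)) (by
      simp only [Prod.dist_eq, max_lt_iff]
      rw [dist_eq_norm, dist_eq_norm]
      exact ⟨ha.trans_le (min_le_left _ _), hb.trans_le (min_le_left _ _)⟩)
    simpa [dist_eq_norm] using this
  obtain ⟨δ₂, hδ₂, H5⟩ := Metric.eventually_nhds_iff.1 (G.small z hεc inj0 hη)
  let r := min δ δ₂
  have hr : 0 < r := lt_min hδ hδ₂
  let rel : Q → Q → Prop := fun x y => ∃ h : A, ‖h - 1‖ ≤ δ ∧ R h x y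
  have tiny : ∀ x ∈ Metric.ball z r, ∀ y ∈ Metric.ball z r, rel x y →
      ∃ Y ∈ M, ‖Y‖ < η ∧ R (1 + Y) x y := by
    rintro x hx y hy ⟨h, hh, hR⟩
    rw [Metric.mem_ball] at hx hy
    obtain ⟨Y, hYM, hY, hR'⟩ := C4 x (hx.trans_le (min_le_left _ _)) h hh
    have hYu : IsUnit (1 + Y) := isUnit_one_add (hY.trans hεc)
    have a1 := G.mul hR (G.inv hR')
    have e : h * Ring.inverse (Ring.inverse (1 + Y) * h) = 1 + Y := by
      obtain ⟨u, rfl⟩ := G.unit hR
      obtain ⟨v, hv⟩ := hYu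
      rw [← hv, Ring.inverse_unit, ← Units.val_mul, Ring.inverse_unit, ← Units.val_mul]
      simp
    rw [e] at a1
    refine ⟨Y, hYM, ?_, a1⟩
    refine H5 (y := (1, x, y)) ?_ Y hYM hY.le (by simpa using a1)
    simp only [Prod.dist_eq, max_lt_iff, dist_self]
    exact ⟨hδ₂, hx.trans_le (min_le_right _ _), hy.trans_le (min_le_right _ _)⟩
  have rsymm : ∀ x ∈ Metric.ball z r, ∀ y ∈ Metric.ball z r, rel x y → rel y x := by
    intro x hx y hy h
    obtain ⟨Y, -, hY, hR⟩ := tiny x hx y hy h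
    refine ⟨_, ?_, G.inv hR⟩
    simpa using (H4 (1 + Y) 1 (by simpa using hY) (by simpa using hη)).2
  have rtrans : ∀ x ∈ Metric.ball z r, ∀ y ∈ Metric.ball z r, ∀ w ∈ Metric.ball z r,
      rel x y → rel y w → rel x w := by
    intro x hx y hy w hw h h'
    obtain ⟨Y, -, hY, hR⟩ := tiny x hx y hy h
    obtain ⟨Y', -, hY', hR'⟩ := tiny y hy w hw h'
    exact ⟨_, (H4 (1 + Y') (1 + Y) (by simpa using hY') (by simpa using hY)).1, G.mul hR' hR⟩
  have rrefl : ∀ x, rel x x := fun x => ⟨1, by simpa using hδ.le, G.one x⟩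
  have rclosed : ∀ x, IsClosed {y | rel x y} := by
    intro x
    refine IsSeqClosed.isClosed fun yk y hyk hy => ?_
    choose h hh hR using hyk
    obtain ⟨U, -, hU, φ, hφ, hU'⟩ := subseq_ball ⊤ (Y := fun k => h k - 1) (fun _ => trivial) hh
    refine ⟨1 + U, by simpa using hU, ?_⟩
    refine G.closed (hk := fun k => h (φ k)) ?_ (isUnit_one_add (hU.trans_lt hδc))
      tendsto_const_nhds (hy.comp hφ.tendsto_atTop) (Eventually.of_forall fun k => hR _)
    simpa [Function.comp_def] using hU'.const_add 1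
  choose g hg using G.trans z
  let a : ℕ → A := TopologicalSpace.denseSeq A
  let P : Q → ℕ → Prop := fun x n =>
    ∃ y ∈ Metric.ball z r, rel x y ∧ ‖a n * Ring.inverse (g y) - 1‖ < η
  have hP : ∀ x ∈ Metric.ball z r, ∃ n, P x n := by
    intro x hx
    have ho : IsOpen {b : A | ‖b * Ring.inverse (g x) - 1‖ < η} :=
      isOpen_lt (by fun_prop) continuous_const
    obtain ⟨n, hn⟩ := (TopologicalSpace.denseRange_denseSeq A).exists_mem_open ho
      ⟨g x, by simpa [Ring.mul_inverse_cancel _ (G.unit (hg x))] using hη⟩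
    exact ⟨n, x, hx, rrefl x, hn⟩
  have hP2 : ∀ x ∈ Metric.ball z r, ∀ x' ∈ Metric.ball z r, ∀ n, P x n → P x' n → rel x x' := by
    rintro x hx x' hx' n ⟨y, hy, h1, h2⟩ ⟨y', hy', h1', h2'⟩
    have h3 : rel y y' := by
      refine ⟨_, (H4 _ _ h2' h2).2, ?_⟩
      have hu : IsUnit (a n * Ring.inverse (g y')) :=
        isUnit_of_norm_sub_one_lt (h2'.trans_le (hηε.trans hεc.le))
      have e : Ring.inverse (a n * Ring.inverse (g y')) * (a n * Ring.inverse (g y)) =
          g y' * Ring.inverse (g y) := by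
        obtain ⟨v, hv⟩ := G.unit (hg y')
        have e1 : a n = (a n * Ring.inverse (g y')) * g y' := by
          rw [mul_assoc, Ring.inverse_mul_cancel _ ⟨v, hv⟩, mul_one]
        calc _ = Ring.inverse (a n * Ring.inverse (g y')) *
              ((a n * Ring.inverse (g y')) * g y' * Ring.inverse (g y)) := by rw [← e1]
          _ = _ := by
            rw [mul_assoc (a n * _), ← mul_assoc, Ring.inverse_mul_cancel _ hu, one_mul]
      rw [e]
      exact G.mul (hg y') (G.inv (hg y))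
    exact rtrans x hx y' hy' x' hx' (rtrans x hx y hy y' hy' h1 h3) (rsymm x' hx' y' hy' h1')
  have conn : ∀ x ∈ Metric.ball z r, rel z x := by
    intro x hx
    let γ : ℝ → Q := fun t => AffineMap.lineMap z x ((projIcc (0 : ℝ) 1 zero_le_one t : ℝ))
    have hγc : Continuous γ := by fun_prop
    have hγ : ∀ t, γ t ∈ Metric.ball z r := fun t =>
      (convex_ball z r).lineMap_mem (Metric.mem_ball_self hr) hx (projIcc _ _ _ t).2
    let f : ℝ → ℕ := fun t => Nat.find (hP _ (hγ t))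
    have hf : ∀ s t, f s = f t ↔ rel (γ s) (γ t) := by
      intro s t
      constructor
      · intro h
        refine hP2 _ (hγ s) _ (hγ t) (f s) (Nat.find_spec (hP _ (hγ s))) ?_
        rw [h]
        exact Nat.find_spec (hP _ (hγ t))
      · intro h
        refine Nat.find_congr' ?_
        intro n
        constructor
        · rintro ⟨y, hy, h1, h2⟩
          exact ⟨y, hy, rtrans _ (hγ t) _ (hγ s) y hy (rsymm _ (hγ s) _ (hγ t) h) h1, h2⟩
        · rintro ⟨y, hy, h1, h2⟩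
          exact ⟨y, hy, rtrans _ (hγ s) _ (hγ t) y hy h h1, h2⟩
    have hcl : ∀ n, IsClosed (f ⁻¹' {n}) := by
      intro n
      rcases (f ⁻¹' {n}).eq_empty_or_nonempty with h | ⟨s, hs⟩
      · rw [h]; exact isClosed_empty
      · have : f ⁻¹' {n} = γ ⁻¹' {y | rel (γ s) y} := by
          ext t
          have hs' : f s = n := hs
          simp only [mem_preimage, mem_singleton_iff, mem_ofPred_eq, ← hf, hs']
          exact eq_comm
        rw [this]
        exact (rclosed _).preimage hγc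
    have := (hf 0 1).1 (const_of_isClosed_fiber f hcl 0 1)
    simpa [γ] using this
  have ex : ∀ x, ∃ Y : A, x ∈ Metric.ball z r → Y ∈ M ∧ ‖Y‖ ≤ ε ∧ R (1 + Y) z x := by
    intro x
    by_cases hx : x ∈ Metric.ball z r
    · obtain ⟨Y, h1, h2, h3⟩ := tiny z (Metric.mem_ball_self hr) x hx (conn x hx)
      exact ⟨Y, fun _ => ⟨h1, h2.le.trans hηε, h3⟩⟩
    · exact ⟨0, fun h => absurd h hx⟩
  choose Y hY using ex
  refine ⟨r, hr, fun x => 1 + Y x, continuousOn_const.add ?_, fun x hx => (hY x hx).2.2⟩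
  intro x hx
  refine tendsto_of_subseq_tendsto fun ns hns => ?_
  obtain ⟨hns1, hns2⟩ := tendsto_nhdsWithin_iff.1 hns
  obtain ⟨N, hN⟩ := eventually_atTop.1 hns2
  obtain ⟨U, hUM, hUε, φ, hφ, hU⟩ := subseq_ball M (Y := fun k => Y (ns (k + N)))
    (fun k => (hY _ (hN _ (Nat.le_add_left _ _))).1)
    (fun k => (hY _ (hN _ (Nat.le_add_left _ _))).2.1)
  have a1 : R (1 + U) z x :=
    G.closed (hU.const_add 1) (isUnit_one_add (hUε.trans_lt hεc)) tendsto_const_nhds
      (hns1.comp ((tendsto_add_atTop_nat N).comp hφ.tendsto_atTop))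
      (Eventually.of_forall fun k => (hY _ (hN _ (Nat.le_add_left _ _))).2.2)
  have a2 : U = Y x :=
    inj U hUM (Y x) (hY x hx).1 hUε (hY x hx).2.1 (G.mul (G.inv (hY x hx).2.2) a1)
  exact ⟨fun k => φ k + N, a2 ▸ hU⟩

end Pool.Agent.Lib.MP_2f98a8_gt
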