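import Mathlib
import Pool.Agent.Lib.MP_2f98a8_gt.Slice

/-!
Global continuous sections of a closed transitive groupoid over a square in the plane.
-/

namespace Pool.Agent.Lib.MP_2f98a8_gt

open Set Filter Topology

variable {A : Type*} [NormedRing A] [NormedAlgebra ℝ A] [NormedAlgebra ℚ A] [CompleteSpace A]
  [NormOneClass A] [FiniteDimensional ℝ A]

/-- A continuous section over `S` with base point `z`. -/
def Sec (R : A → ℝ × ℝ → ℝ × ℝ → Prop) (z : ℝ × ℝ) (S : Set (ℝ × ℝ)) : Prop :=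
  ∃ σ : ℝ × ℝ → A, ContinuousOn σ S ∧ ∀ x ∈ S, R (σ x) z x

variable {R : A → ℝ × ℝ → ℝ × ℝ → Prop}

omit [NormedAlgebra ℝ A] [NormedAlgebra ℚ A] [CompleteSpace A] [NormOneClass A]
  [FiniteDimensional ℝ A] in
lemma Sec.mono {z : ℝ × ℝ} {S T : Set (ℝ × ℝ)} (h : Sec R z S) (hT : T ⊆ S) : Sec R z T := by
  obtain ⟨σ, h1, h2⟩ := h
  exact ⟨σ, h1.mono hT, fun x hx => h2 x (hT hx)⟩

omit [NormedAlgebra ℝ A] [NormedAlgebra ℚ A] [NormOneClass A] [FiniteDimensional ℝ A] in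
lemma Sec.patch (G : IsGroupoid R) {z : ℝ × ℝ} {S T : Set (ℝ × ℝ)} (hS : IsClosed S)
    (hT : IsClosed T) (ρ : ℝ × ℝ → ℝ × ℝ) (hρ : Continuous ρ) (h1 : ∀ x ∈ T, ρ x ∈ S ∩ T)
    (h2 : ∀ x ∈ S ∩ T, ρ x = x) (s : Sec R z S) (t : Sec R z T) : Sec R z (S ∪ T) := by
  classical
  obtain ⟨σ, σc, σR⟩ := s
  obtain ⟨τ, τc, τR⟩ := t
  let τ' : ℝ × ℝ → A := fun x => τ x * (Ring.inverse (τ (ρ x)) * σ (ρ x))
  have c1 : ContinuousOn τ' T := by
    refine τc.mul (ContinuousOn.mul ?_ (σc.comp hρ.continuousOn fun x hx => (h1 x hx).1))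
    intro x hx
    exact tendsto_inverse (G.unit (τR _ (h1 x hx).2))
      ((τc.comp hρ.continuousOn fun x hx => (h1 x hx).2) x hx)
  have e : ∀ x ∈ S ∩ T, τ' x = σ x := by
    intro x hx
    simp only [τ', h2 x hx]
    rw [← mul_assoc, Ring.mul_inverse_cancel _ (G.unit (τR x hx.2)), one_mul]
  refine ⟨fun x => if x ∈ S then σ x else τ' x, ?_, ?_⟩
  · refine ContinuousOn.union_of_isClosed ?_ ?_ hS hT
    · exact σc.congr fun x hx => if_pos hx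
    · refine c1.congr fun x hx => ?_
      by_cases h : x ∈ S
      · simp only [if_pos h]; exact (e x ⟨h, hx⟩).symm
      · simp only [if_neg h]
  · intro x hx
    by_cases h : x ∈ S
    · simp only [if_pos h]; exact σR x h
    · simp only [if_neg h]
      have hxT : x ∈ T := hx.resolve_left h
      exact G.mul (τR x hxT) (G.mul (G.inv (τR _ (h1 x hxT).2)) (σR _ (h1 x hxT).1))

lemma IsGroupoid.sec_local (G : IsGroupoid R) (z x : ℝ × ℝ) :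
    ∃ r > 0, Sec R z (Icc (x.1 - r) (x.1 + r) ×ˢ Icc (x.2 - r) (x.2 + r)) := by
  obtain ⟨r, hr, σ, h1, h2⟩ := G.local_section x
  obtain ⟨g, hg⟩ := G.trans z x
  have : Sec R z (Metric.ball x r) :=
    ⟨fun y => σ y * g, h1.mul continuousOn_const, fun y hy => G.mul (h2 y hy) hg⟩
  refine ⟨r / 2, by linarith, this.mono ?_⟩
  rintro y ⟨⟨a1, a2⟩, ⟨a3, a4⟩⟩
  rw [Metric.mem_ball, Prod.dist_eq, max_lt_iff, Real.dist_eq, Real.dist_eq, abs_lt, abs_lt]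
  refine ⟨⟨?_, ?_⟩, ?_, ?_⟩ <;> linarith

lemma IsGroupoid.sec_strip (G : IsGroupoid R) (z : ℝ × ℝ) (s : ℝ) :
    ∃ η > 0, Sec R z (Icc (s - η) (s + η) ×ˢ Icc (-1) 1) := by
  refine interval_induction (fun a b => ∃ η > 0, Sec R z (Icc (s - η) (s + η) ×ˢ Icc a b))
    (-1) 1 (by norm_num) (fun t _ => ?_) ?_
  · obtain ⟨r, hr, h⟩ := G.sec_local z (s, t)
    exact ⟨r, hr, fun a b ha _ hb => ⟨r, hr, h.mono (prod_mono le_rfl (Icc_subset_Icc ha hb))⟩⟩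
  · rintro a b c hab hbc ⟨η₁, h1, s1⟩ ⟨η₂, h2, s2⟩
    refine ⟨min η₁ η₂, lt_min h1 h2, ?_⟩
    have t1 := s1.mono (prod_mono (Icc_subset_Icc (a₁ := s - min η₁ η₂) (b₁ := s + min η₁ η₂)
      (by linarith [min_le_left η₁ η₂]) (by linarith [min_le_left η₁ η₂])) le_rfl)
    have t2 := s2.mono (prod_mono (Icc_subset_Icc (a₁ := s - min η₁ η₂) (b₁ := s + min η₁ η₂)
      (by linarith [min_le_right η₁ η₂]) (by linarith [min_le_right η₁ η₂])) le_rfl)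
    have := Sec.patch G (isClosed_Icc.prod isClosed_Icc) (isClosed_Icc.prod isClosed_Icc)
      (fun x => (x.1, b)) (by fun_prop)
      (fun x hx => ⟨⟨hx.1, hab, le_rfl⟩, hx.1, le_rfl, hbc⟩)
      (fun x hx => Prod.ext rfl (le_antisymm hx.2.2.1 hx.1.2.2)) t1 t2
    rwa [← prod_union, Icc_union_Icc_eq_Icc hab hbc] at this

theorem IsGroupoid.sec_square (G : IsGroupoid R) (z : ℝ × ℝ) :
    Sec R z (Icc (-1) 1 ×ˢ Icc (-1) 1) := by
  refine interval_induction (fun a b => Sec R z (Icc a b ×ˢ Icc (-1) 1))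
    (-1) 1 (by norm_num) (fun t _ => ?_) ?_
  · obtain ⟨r, hr, h⟩ := G.sec_strip z t
    exact ⟨r, hr, fun a b ha _ hb => h.mono (prod_mono (Icc_subset_Icc ha hb) le_rfl)⟩
  · rintro a b c hab hbc t1 t2
    have := Sec.patch G (isClosed_Icc.prod isClosed_Icc) (isClosed_Icc.prod isClosed_Icc)
      (fun x => (b, x.2)) (by fun_prop)
      (fun x hx => ⟨⟨⟨hab, le_rfl⟩, hx.2⟩, ⟨le_rfl, hbc⟩, hx.2⟩)
      (fun x hx => Prod.ext (le_antisymm hx.2.1.1 hx.1.1.2) rfl) t1 t2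
    rwa [← union_prod, Icc_union_Icc_eq_Icc hab hbc] at this

/-- A section on the whole plane that is correct on the square and normalised at `z`. -/
theorem IsGroupoid.exists_global (G : IsGroupoid R) (z : ℝ × ℝ)
    (hz : z ∈ Icc (-1 : ℝ) 1 ×ˢ Icc (-1 : ℝ) 1) :
    ∃ σ : ℝ × ℝ → A, Continuous σ ∧ σ z = 1 ∧ (∀ x, ∃ y, R (σ x) z y) ∧
      ∀ x ∈ Icc (-1 : ℝ) 1 ×ˢ Icc (-1 : ℝ) 1, R (σ x) z x := by
  obtain ⟨σ, h1, h2⟩ := G.sec_square z
  let c : ℝ × ℝ → ℝ × ℝ := fun x =>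
    (projIcc (-1 : ℝ) 1 (by norm_num) x.1, projIcc (-1 : ℝ) 1 (by norm_num) x.2)
  have hc : Continuous c := by fun_prop
  have hc1 : ∀ x, c x ∈ Icc (-1 : ℝ) 1 ×ˢ Icc (-1 : ℝ) 1 := fun x =>
    ⟨(projIcc (-1 : ℝ) 1 (by norm_num) x.1).2, (projIcc (-1 : ℝ) 1 (by norm_num) x.2).2⟩
  have hc2 : ∀ x ∈ Icc (-1 : ℝ) 1 ×ˢ Icc (-1 : ℝ) 1, c x = x := fun x hx => by
    simp only [c, projIcc_of_mem _ hx.1, projIcc_of_mem _ hx.2]
  refine ⟨fun x => σ (c x) * Ring.inverse (σ z),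
    (h1.comp_continuous hc hc1).mul continuous_const, ?_, fun x => ⟨c x, ?_⟩, fun x hx => ?_⟩
  · simp only [hc2 z hz]
    exact Ring.mul_inverse_cancel _ (G.unit (h2 z hz))
  · exact G.mul (h2 _ (hc1 x)) (G.inv (h2 z hz))
  · simp only [hc2 x hx]
    exact G.mul (h2 x hx) (G.inv (h2 z hz))

end Pool.Agent.Lib.MP_2f98a8_gt
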