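import Mathlib
import Pool.Agent.Lib.MP_2f98a8_gt.Cone

/-!
Traces of cone automorphisms, and the quadratic cone from an irrational rotation.
-/

namespace Pool.Agent.Lib.MP_2f98a8_gt

open Set Filter Topology Matrix

variable {N : V → ℝ}

/-- The quadratic cofactor of the characteristic polynomial, evaluated at `M`. -/
def qM (M : Mat) : Mat := M * M - (M.trace - 1) • M + 1

lemma qM_eq_adj {M : Mat} (h1 : M.det = 1) (h2 : (M - 1).det = 0) : qM M = adjugate (M - 1) := by
  rw [det_fin_three] at h1 h2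
  rw [adjugate_fin_three]
  simp only [Matrix.sub_apply, one_apply] at h2
  simp at h2
  ext i j
  fin_cases i <;> fin_cases j <;>
    simp [qM, Matrix.mul_apply, Fin.sum_univ_three, trace_fin_three, one_apply] <;>
    first
      | linear_combination h2 - h1
      | ring

lemma qM_mul {M : Mat} (h1 : M.det = 1) (h2 : (M - 1).det = 0) : qM M * (M - 1) = 0 := by
  rw [qM_eq_adj h1 h2, adjugate_mul, h2, zero_smul]

lemma det_sub_smul {M : Mat} (h1 : M.det = 1) (h2 : (M - 1).det = 0) (μ : ℝ) :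
    (M - μ • 1).det = (1 - μ) * (μ ^ 2 - (M.trace - 1) * μ + 1) := by
  rw [det_fin_three] at h1 h2 ⊢
  simp only [Matrix.sub_apply, one_apply] at h2
  simp at h2
  simp [trace_fin_three, one_apply]
  linear_combination (1 - μ) * h1 + μ * h2

lemma adj_parallel {A : Mat} {b : V} (hb : A *ᵥ b = 0) (u : V) (i : Fin 3) :
    (adjugate A *ᵥ u) i * b 2 = (adjugate A *ᵥ u) 2 * b i := by
  have h0 := congrFun hb 0
  have h1 := congrFun hb 1
  have h2 := congrFun hb 2
  simp only [mulVec, dotProduct, Fin.sum_univ_three, Pi.zero_apply] at h0 h1 h2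
  rw [adjugate_fin_three]
  fin_cases i
  · simp [mulVec, dotProduct, Fin.sum_univ_three]
    linear_combination (u 0 * A 1 1 * 0 + u 1 * A 2 1 - u 2 * A 1 1) * h0 +
      (u 2 * A 0 1 - u 0 * A 2 1) * h1 + (u 0 * A 1 1 - u 1 * A 0 1) * h2
  · simp [mulVec, dotProduct, Fin.sum_univ_three]
    linear_combination (u 2 * A 1 0 - u 1 * A 2 0) * h0 +
      (u 0 * A 2 0 - u 2 * A 0 0) * h1 + (u 1 * A 0 0 - u 0 * A 1 0) * h2
  · rfl

lemma det_sub_one_of_fixed {M : Mat} {v : V} (hv : v ≠ 0) (h : M *ᵥ v = v) :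
    (M - 1).det = 0 :=
  exists_mulVec_eq_zero_iff.1 ⟨v, hv, by rw [sub_mulVec, h, one_mulVec, sub_self]⟩

lemma eq_zero_of_nat_mul_bounded {y w : V} {C : ℝ} (h : ∀ k : ℕ, ‖y + (k : ℝ) • w‖ ≤ C) :
    w = 0 := by
  by_contra hw
  have hn : 0 < ‖w‖ := norm_pos_iff.2 hw
  obtain ⟨k, hk⟩ := exists_nat_gt ((C + ‖y‖) / ‖w‖)
  rw [div_lt_iff₀ hn] at hk
  have h1 : ‖(k : ℝ) • w‖ ≤ ‖y + (k : ℝ) • w‖ + ‖y‖ := by
    simpa using norm_sub_le (y + (k : ℝ) • w) y
  rw [norm_smul, Real.norm_natCast] at h1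
  linarith [h k]

lemma IsGauge.trace_lt_three (g : IsGauge N) {M : Mat} (h : PresO N M) (hdet : M.det = 1)
    {v : V} (hv : N v < v 2) (hM : M *ᵥ v = v)
    (hno : ∀ b : V, N b = b 2 → b ≠ 0 → ∀ μ : ℝ, M *ᵥ b ≠ μ • b) : M.trace < 3 := by
  have hv0 : v ≠ 0 := by
    rintro rfl
    simp [g.zero] at hv
  have h2 := det_sub_one_of_fixed hv0 hM
  rcases lt_trichotomy M.trace 3 with hT | hT | hT
  · exact hT
  · exfalso
    have h3 := qM_mul hdet h2
    have e : qM M = (M - 1) * (M - 1) := by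
      rw [qM, hT]
      simp only [sub_mul, mul_sub, mul_one, one_mul]
      rw [show (3 - 1 : ℝ) = 2 by norm_num, two_smul]
      abel
    have step : ∀ y w : V, (M - 1) *ᵥ y = w → (M - 1) *ᵥ w = 0 → w = 0 := by
      intro y w h1 h2
      rw [sub_mulVec, one_mulVec] at h1 h2
      have hk : ∀ k : ℕ, (M ^ k) *ᵥ y = y + (k : ℝ) • w := by
        intro k
        induction k with
        | zero => simp
        | succ k ih =>
          rw [pow_succ', ← mulVec_mulVec, ih, mulVec_add, mulVec_smul, sub_eq_zero.1 h2,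
            eq_add_of_sub_eq h1]
          push_cast
          rw [add_smul, one_smul]
          abel
      obtain ⟨C, hC⟩ := g.bounded_pow h hv hM y
      exact eq_zero_of_nat_mul_bounded (fun k => hk k ▸ hC k)
    have all : ∀ x : V, (M - 1) *ᵥ x = 0 := by
      intro x
      refine step x _ rfl (step ((M - 1) *ᵥ x) _ rfl ?_)
      rw [mulVec_mulVec, mulVec_mulVec, ← e, h3, zero_mulVec]
    refine hno ![1, 0, N ![1, 0, 0]] (g.indep _ _ rfl rfl) (fun h0 => ?_) 1 ?_
    · simpa using congrFun h0 0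
    · have := all ![1, 0, N ![1, 0, 0]]
      rw [sub_mulVec, one_mulVec, sub_eq_zero] at this
      rw [this, one_smul]
  · exfalso
    have hD : 0 ≤ (M.trace - 1) ^ 2 - 4 := by nlinarith
    set μ := ((M.trace - 1) + Real.sqrt ((M.trace - 1) ^ 2 - 4)) / 2 with hμ
    have hμ1 : 1 < μ := by
      have := Real.sqrt_nonneg ((M.trace - 1) ^ 2 - 4)
      rw [hμ]; linarith
    have hq : μ ^ 2 - (M.trace - 1) * μ + 1 = 0 := by
      have := Real.sq_sqrt hD
      rw [hμ]; nlinarith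
    obtain ⟨w, hw0, hw⟩ := exists_mulVec_eq_zero_iff.2
      (show (M - μ • 1).det = 0 by rw [det_sub_smul hdet h2, hq, mul_zero])
    rw [sub_mulVec, smul_mulVec, one_mulVec, sub_eq_zero] at hw
    have hk : ∀ k : ℕ, (M ^ k) *ᵥ w = μ ^ k • w := by
      intro k
      induction k with
      | zero => simp
      | succ k ih => rw [pow_succ, ← mulVec_mulVec, hw, mulVec_smul, ih, smul_smul, pow_succ']
    obtain ⟨C, hC⟩ := g.bounded_pow h hv hM w
    have hn : 0 < ‖w‖ := norm_pos_iff.2 hw0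
    have : μ ≤ 1 := le_one_of_pow_bounded (C := C / ‖w‖) fun k => by
      have := hC k
      rw [hk, norm_smul, Real.norm_of_nonneg (by positivity)] at this
      rwa [le_div_iff₀ hn]
    linarith

lemma concave_seq {a : ℕ → ℝ} {κ : ℝ} (hκ : 0 < κ) (h0 : ∀ k, 0 ≤ a k)
    (h : ∀ k, a (k + 2) = 2 * a (k + 1) - a k - κ * a (k + 1)) : a 1 ≤ 0 := by
  have d1 : ∀ k j, a (k + j + 1) - a (k + j) ≤ a (k + 1) - a k := by
    intro k j
    induction j with
    | zero => simp
    | succ j ih =>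
      have := h (k + j)
      have e1 : k + (j + 1) + 1 = k + j + 2 := by ring
      have e2 : k + (j + 1) = k + j + 1 := by ring
      rw [e1, e2]
      nlinarith [h0 (k + j + 1)]
  have d2 : ∀ k j, a (k + j) ≤ a k + j * (a (k + 1) - a k) := by
    intro k j
    induction j with
    | zero => simp
    | succ j ih =>
      have := d1 k j
      rw [← add_assoc]
      push_cast
      linarith
  have d3 : ∀ k, a k ≤ a (k + 1) := by
    intro k
    by_contra hc
    push Not at hc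
    obtain ⟨j, hj⟩ := exists_nat_gt (a k / (a k - a (k + 1)))
    rw [div_lt_iff₀ (by linarith)] at hj
    linarith [d2 k j, h0 (k + j)]
  have d4 : ∀ k, a 1 ≤ a (k + 1) := by
    intro k
    induction k with
    | zero => simp
    | succ k ih => exact ih.trans (d3 _)
  have d5 : ∀ k : ℕ, a (k + 1) - a k ≤ a 1 - a 0 - k * (κ * a 1) := by
    intro k
    induction k with
    | zero => simp
    | succ k ih =>
      have := h k
      have e := mul_le_mul_of_nonneg_left (d4 k) hκ.le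
      push_cast
      linarith
  by_contra hc
  push Not at hc
  obtain ⟨k, hk⟩ := exists_nat_gt ((a 1 - a 0) / (κ * a 1))
  rw [div_lt_iff₀ (by positivity)] at hk
  linarith [d5 k, d3 k]

lemma IsGauge.support (g : IsGauge N) {b : V} (hb : N b = b 2) (hb0 : b ≠ 0) :
    ∃ ξ : V →ₗ[ℝ] ℝ, (∀ y, N y ≤ y 2 → 0 ≤ ξ y) ∧ ξ b = 0 ∧ 0 < ξ e2 := by
  obtain ⟨f, hf1, hf2⟩ := exists_extension_of_le_sublinear
    (LinearPMap.mkSpanSingleton b (N b) hb0) N (fun c hc => g.smul c hc.le) g.add (by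
      rintro ⟨x, hx⟩
      obtain ⟨c, rfl⟩ := Submodule.mem_span_singleton.1 hx
      rw [LinearPMap.mkSpanSingleton'_apply]
      simp only [RingHom.id_apply, smul_eq_mul]
      rcases le_total 0 c with hc | hc
      · exact (g.smul c hc b).ge
      · exact (mul_nonpos_of_nonpos_of_nonneg hc (g.nonneg b)).trans (g.nonneg _))
  refine ⟨LinearMap.proj 2 - f, fun y hy => ?_, ?_, ?_⟩
  · simpa using (hf2 y).trans hy
  · have := hf1 ⟨b, Submodule.mem_span_singleton_self b⟩
    rw [LinearPMap.mkSpanSingleton_apply] at this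
    simp only [LinearMap.sub_apply, LinearMap.coe_proj, Function.eval]
    rw [this, hb, sub_self]
  · have := hf2 e2
    rw [g.vert e2_0 e2_1] at this
    simp only [LinearMap.sub_apply, LinearMap.coe_proj, Function.eval, e2_2]
    linarith

lemma IsGauge.three_le_trace (g : IsGauge N) {M M' : Mat} (hMM : M * M' = 1) (h : PresO N M)
    (h' : PresO N M') (hdet : M.det = 1) (h2 : (M - 1).det = 0) {b : V} (hb : N b = b 2)
    (hb0 : b ≠ 0) {μ : ℝ} (hμ : 0 < μ) (hM : M *ᵥ b = μ • b) : 3 ≤ M.trace := by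
  by_contra hT
  push Not at hT
  have a1 : (M - μ • 1).det = 0 := exists_mulVec_eq_zero_iff.1
    ⟨b, hb0, by rw [sub_mulVec, smul_mulVec, one_mulVec, hM, sub_self]⟩
  rw [det_sub_smul hdet h2] at a1
  have a2 : μ = 1 := by
    rcases mul_eq_zero.1 a1 with a | a
    · linarith
    · nlinarith [sq_nonneg (μ - 1)]
  rw [a2, one_smul] at hM
  obtain ⟨ξ, x1, x2, x3⟩ := g.support hb hb0
  have hb2 := g.snd_pos hb.le hb0
  have a3 : ∀ u, ξ (qM M *ᵥ u) = 0 := by
    intro u
    have : qM M *ᵥ u = ((qM M *ᵥ u) 2 / b 2) • b := by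
      ext i
      have := adj_parallel (A := M - 1) (b := b)
        (by rw [sub_mulVec, one_mulVec, hM, sub_self]) u i
      rw [← qM_eq_adj hdet h2] at this
      simp only [Pi.smul_apply, smul_eq_mul]
      field_simp
      linarith
    rw [this, map_smul, x2, smul_zero]
  have he : N e2 ≤ e2 2 := by simp [g.vert e2_0 e2_1]
  have := concave_seq (a := fun k => ξ ((M ^ k) *ᵥ (M' *ᵥ e2))) (κ := 3 - M.trace) (by linarith)
    (fun k => x1 _ (h.pow k _ (h' _ he))) (fun k => by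
      have := a3 ((M ^ k) *ᵥ (M' *ᵥ e2))
      simp only [qM, add_mulVec, sub_mulVec, smul_mulVec, one_mulVec, map_add, map_sub,
        map_smul, smul_eq_mul] at this
      rw [pow_succ' M (k + 1), pow_succ' M k]
      simp only [← mulVec_mulVec] at this ⊢
      linarith)
  simp only [pow_one, mulVec_mulVec, hMM, one_mulVec] at this
  linarith

/-- Rotation about the vertical axis. -/
noncomputable def rot (θ : ℝ) : Mat :=
  !![Real.cos θ, -Real.sin θ, 0; Real.sin θ, Real.cos θ, 0; 0, 0, 1]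

lemma rot_add (a b : ℝ) : rot (a + b) = rot a * rot b := by
  ext i j
  fin_cases i <;> fin_cases j <;>
    simp [rot, Matrix.mul_apply, Fin.sum_univ_three, Real.cos_add, Real.sin_add] <;> ring

lemma rot_zero : rot 0 = 1 := by
  ext i j
  fin_cases i <;> fin_cases j <;> simp [rot]

lemma rot_mulVec (θ : ℝ) (y : V) : rot θ *ᵥ y =
    ![Real.cos θ * y 0 - Real.sin θ * y 1, Real.sin θ * y 0 + Real.cos θ * y 1, y 2] := by
  ext i
  fin_cases i <;> simp [rot, mulVec, dotProduct, Fin.sum_univ_three, sub_eq_add_neg]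

lemma continuous_rot : Continuous rot := by
  refine continuous_matrix fun i j => ?_
  fin_cases i <;> fin_cases j <;> simp [rot] <;> fun_prop

lemma exists_rot {a b : V} (h : a 0 ^ 2 + a 1 ^ 2 = b 0 ^ 2 + b 1 ^ 2) (h2 : a 2 = b 2) :
    ∃ θ, rot θ *ᵥ a = b := by
  let za : ℂ := ⟨a 0, a 1⟩
  let zb : ℂ := ⟨b 0, b 1⟩
  have hn : ‖za‖ = ‖zb‖ := by
    simp only [Complex.norm_def, Complex.normSq_mk, za, zb]
    congr 1
    linarith
  have ea := Complex.norm_mul_exp_arg_mul_I za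
  have eb := Complex.norm_mul_exp_arg_mul_I zb
  have key : Complex.exp ((zb.arg - za.arg : ℝ) * Complex.I) * za = zb := by
    calc Complex.exp ((zb.arg - za.arg : ℝ) * Complex.I) * za
        = Complex.exp ((zb.arg - za.arg : ℝ) * Complex.I) *
            (‖za‖ * Complex.exp (za.arg * Complex.I)) := by rw [ea]
      _ = ‖zb‖ * Complex.exp (zb.arg * Complex.I) := by
          rw [hn, mul_left_comm, ← Complex.exp_add]
          congr 2
          push_cast
          ring
      _ = zb := eb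
  refine ⟨zb.arg - za.arg, ?_⟩
  rw [rot_mulVec]
  have k1 := congrArg Complex.re key
  have k2 := congrArg Complex.im key
  simp only [Complex.mul_re, Complex.mul_im, Complex.exp_ofReal_mul_I_re,
    Complex.exp_ofReal_mul_I_im, za, zb] at k1 k2
  ext i
  fin_cases i
  · exact k1
  · simp only [Fin.mk_one, cons_val_one, cons_val_zero]
    linarith
  · exact h2

/-- The double boundary cone is the zero set of a quadratic form. -/
def IsConic (N : V → ℝ) : Prop :=
  ∃ (L : Mat) (κ : ℝ), ∀ y : V,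
    (L *ᵥ y) 0 ^ 2 + (L *ᵥ y) 1 ^ 2 - κ * (L *ᵥ y) 2 ^ 2 = 0 ↔ (N y = y 2 ∨ N (-y) = (-y) 2)

lemma IsGauge.conic_of_rot (g : IsGauge N) {P L : Mat} (hPL : P * L = 1) (hLP : L * P = 1)
    (hv : N (P *ᵥ e2) < (P *ᵥ e2) 2) (hR : ∀ θ, PresG N (P * rot θ * L)) : IsConic N := by
  have back : ∀ y, P *ᵥ (L *ᵥ y) = y := fun y => by rw [mulVec_mulVec, hPL, one_mulVec]
  have back' : ∀ y, L *ᵥ (P *ᵥ y) = y := fun y => by rw [mulVec_mulVec, hLP, one_mulVec]
  have hG : ∀ θ a, N (P *ᵥ a) = (P *ᵥ a) 2 →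
      N (P *ᵥ (rot θ *ᵥ a)) = (P *ᵥ (rot θ *ᵥ a)) 2 := by
    intro θ a ha
    have := hR θ _ ha
    rwa [← mulVec_mulVec, ← mulVec_mulVec, back'] at this
  have hO : ∀ θ a, N (P *ᵥ a) ≤ (P *ᵥ a) 2 →
      N (P *ᵥ (rot θ *ᵥ a)) ≤ (P *ᵥ (rot θ *ᵥ a)) 2 := by
    intro θ a ha
    have := g.presO (hR θ) _ ha
    rwa [← mulVec_mulVec, ← mulVec_mulVec, back'] at this
  have hv2 : 0 < (P *ᵥ e2) 2 := (g.nonneg _).trans_lt hv
  have pos : ∀ a : V, N (P *ᵥ a) ≤ (P *ᵥ a) 2 → a ≠ 0 → 0 < a 2 := by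
    intro a ha ha0
    have hPa : P *ᵥ a ≠ 0 := fun h => ha0 (by rw [← back' a, h, mulVec_zero])
    have h1 := g.snd_pos ha hPa
    have h2 := (g.nonneg _).trans (hO Real.pi a ha)
    have e : P *ᵥ a + P *ᵥ (rot Real.pi *ᵥ a) = (2 * a 2) • (P *ᵥ e2) := by
      rw [← mulVec_add, ← mulVec_smul, rot_mulVec]
      congr 1
      ext i
      fin_cases i <;> simp
      ring
    have e' := congrFun e 2
    simp only [Pi.add_apply, Pi.smul_apply, smul_eq_mul] at e'
    by_contra hc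
    push Not at hc
    nlinarith
  have radius : ∀ a b : V, N (P *ᵥ a) = (P *ᵥ a) 2 → N (P *ᵥ b) = (P *ᵥ b) 2 → a 2 = 1 →
      b 2 = 1 → b 0 ^ 2 + b 1 ^ 2 ≤ a 0 ^ 2 + a 1 ^ 2 := by
    intro a b ha hb a2 b2
    by_contra hc
    push Not at hc
    have hb0 : 0 < b 0 ^ 2 + b 1 ^ 2 := lt_of_le_of_lt (by positivity) hc
    set s := Real.sqrt ((a 0 ^ 2 + a 1 ^ 2) / (b 0 ^ 2 + b 1 ^ 2)) with hs
    have s0 : 0 ≤ s := Real.sqrt_nonneg _
    have s2 : s ^ 2 * (b 0 ^ 2 + b 1 ^ 2) = a 0 ^ 2 + a 1 ^ 2 := by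
      rw [hs, Real.sq_sqrt (by positivity), div_mul_cancel₀ _ hb0.ne']
    have s1 : s < 1 := by
      rw [hs, Real.sqrt_lt' one_pos, one_pow, div_lt_one hb0]
      exact hc
    obtain ⟨θ, hθ⟩ := exists_rot (a := s • b + (1 - s) • e2) (b := a)
      (by simp; linarith) (by simp [a2, b2])
    have e : P *ᵥ a = s • (P *ᵥ (rot θ *ᵥ b)) + (1 - s) • (P *ᵥ e2) := by
      rw [← hθ, mulVec_add, mulVec_smul, mulVec_smul, mulVec_add, mulVec_smul, mulVec_smul]
      congr 3
      rw [rot_mulVec]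
      ext i
      fin_cases i <;> simp
    have h1 := g.add (s • (P *ᵥ (rot θ *ᵥ b))) ((1 - s) • (P *ᵥ e2))
    rw [← e, g.smul _ s0, g.smul _ (by linarith), hG θ b hb, ha] at h1
    have e' := congrFun e 2
    simp only [Pi.add_apply, Pi.smul_apply, smul_eq_mul] at e'
    nlinarith
  have normal : ∀ a : V, N (P *ᵥ a) = (P *ᵥ a) 2 → a ≠ 0 →
      N (P *ᵥ ((a 2)⁻¹ • a)) = (P *ᵥ ((a 2)⁻¹ • a)) 2 ∧ ((a 2)⁻¹ • a) 2 = 1 := by
    intro a ha ha0
    have := pos a ha.le ha0
    rw [mulVec_smul]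
    exact ⟨g.smulG (inv_pos.2 this).le ha, by simp [this.ne']⟩
  obtain ⟨c, hc1, hc2⟩ : ∃ c : V, N (P *ᵥ c) = (P *ᵥ c) 2 ∧ c 2 = 1 := by
    refine ⟨_, normal (L *ᵥ ![1, 0, N ![1, 0, 0]]) ?_ fun h => ?_⟩
    · rw [back]
      exact g.indep _ _ rfl rfl
    · have := back ![1, 0, N ![1, 0, 0]]
      rw [h, mulVec_zero] at this
      simpa using congrFun this 0
  have fwd : ∀ a : V, N (P *ᵥ a) = (P *ᵥ a) 2 →
      a 0 ^ 2 + a 1 ^ 2 - (c 0 ^ 2 + c 1 ^ 2) * a 2 ^ 2 = 0 := by
    intro a ha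
    rcases eq_or_ne a 0 with rfl | ha0
    · simp
    obtain ⟨n1, n2⟩ := normal a ha ha0
    have := le_antisymm (radius _ _ n1 hc1 n2 hc2) (radius _ _ hc1 n1 hc2 n2)
    have h2 := (pos a ha.le ha0).ne'
    simp only [Pi.smul_apply, smul_eq_mul] at this
    rw [this]
    field_simp
    ring
  have bwd : ∀ a : V, a 0 ^ 2 + a 1 ^ 2 - (c 0 ^ 2 + c 1 ^ 2) * a 2 ^ 2 = 0 → 0 ≤ a 2 →
      N (P *ᵥ a) = (P *ᵥ a) 2 := by
    intro a ha h2
    obtain ⟨θ, hθ⟩ := exists_rot (a := a 2 • c) (b := a) (by simp; linarith) (by simp [hc2])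
    rw [← hθ]
    refine hG θ _ ?_
    rw [mulVec_smul]
    exact g.smulG h2 hc1
  refine ⟨L, c 0 ^ 2 + c 1 ^ 2, fun y => ⟨fun h => ?_, fun h => ?_⟩⟩
  · rcases le_total 0 ((L *ᵥ y) 2) with h2 | h2
    · left
      simpa only [back] using bwd _ h h2
    · right
      have := bwd (L *ᵥ (-y)) (by simpa [mulVec_neg] using h) (by simpa [mulVec_neg] using h2)
      simpa only [back] using this
  · rcases h with h | h
    · exact fwd _ (by simpa only [back] using h)
    · have := fwd (L *ᵥ (-y)) (by simpa only [back] using h)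
      simpa [mulVec_neg] using this

theorem IsGauge.conic_of_irrational (g : IsGauge N) {M M' : Mat} (hMM : M' * M = 1)
    (h : PresG N M) (h' : PresG N M') (hdet : M.det = 1) {v : V} (hv : N v < v 2)
    (hM : M *ᵥ v = v) {φ : ℝ} (hφ : Irrational (φ / (2 * Real.pi))) (hs : Real.sin φ ≠ 0)
    (hT : M.trace = 1 + 2 * Real.cos φ) : IsConic N := by
  have hv0 : v ≠ 0 := by
    rintro rfl
    simp [g.zero] at hv
  have h2 := det_sub_one_of_fixed hv0 hM
  have hq := qM_mul hdet h2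
  have hsc := Real.sin_sq_add_cos_sq φ
  have hc1 : Real.cos φ ≠ 1 := by
    intro hc
    rw [hc] at hsc
    exact hs (by nlinarith)
  obtain ⟨u, hu⟩ : ∃ u : V, (M - 1) *ᵥ u ≠ 0 := by
    by_contra hcon
    push Not at hcon
    have : M = 1 := by
      rw [← sub_eq_zero]
      ext i j
      have := congrFun (hcon (Pi.single j 1)) i
      rwa [mulVec_single_one] at this
    rw [this] at hT
    simp at hT
    exact hc1 (by linarith)
  set e := (M - 1) *ᵥ u with he
  have q1 : M *ᵥ (M *ᵥ e) = (2 * Real.cos φ) • (M *ᵥ e) - e := by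
    have : qM M *ᵥ e = 0 := by rw [he, mulVec_mulVec, hq, zero_mulVec]
    simp only [qM, add_mulVec, sub_mulVec, smul_mulVec, one_mulVec, ← mulVec_mulVec, hT,
      add_sub_cancel_left] at this
    rw [← sub_eq_zero, ← this]
    abel
  set f := (Real.sin φ)⁻¹ • (M *ᵥ e - Real.cos φ • e) with hf
  have Me : M *ᵥ e = Real.cos φ • e + Real.sin φ • f := by
    rw [hf, smul_smul, mul_inv_cancel₀ hs, one_smul]; abel
  have Mf : M *ᵥ f = (-Real.sin φ) • e + Real.cos φ • f := by
    rw [hf, mulVec_smul, mulVec_sub, mulVec_smul, q1]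
    ext i
    simp only [Pi.add_apply, Pi.smul_apply, Pi.sub_apply, smul_eq_mul]
    field_simp
    linear_combination (e i) * hsc
  clear_value f e
  let P : Mat := Matrix.of fun i j => (![e, f, v] : Fin 3 → V) j i
  have hP : ∀ a : V, P *ᵥ a = a 0 • e + a 1 • f + a 2 • v := by
    intro a
    ext i
    simp [P, mulVec, dotProduct, Fin.sum_univ_three, mul_comm]
  have hMP : ∀ a : V, M *ᵥ (P *ᵥ a) = P *ᵥ (rot φ *ᵥ a) := by
    intro a
    rw [hP, hP, rot_mulVec, mulVec_add, mulVec_add, mulVec_smul, mulVec_smul, mulVec_smul, Me,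
      Mf, hM]
    ext i
    simp
    ring
  have hdP : P.det ≠ 0 := by
    intro h0
    obtain ⟨a, ha0, ha⟩ := exists_mulVec_eq_zero_iff.2 h0
    have r1 := hMP a
    have r2 := hMP (rot φ *ᵥ a)
    rw [ha, mulVec_zero] at r1
    rw [← r1, mulVec_zero] at r2
    rw [hP] at ha r1 r2
    simp only [rot_mulVec, cons_val_zero, cons_val_one, cons_val] at r1 r2
    have a2 : a 2 = 0 := by
      obtain ⟨i, hi⟩ := Function.ne_iff.1 hv0
      have b0 := congrFun ha i
      have b1 := congrFun r1 i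
      have b2 := congrFun r2 i
      simp only [Pi.add_apply, Pi.smul_apply, smul_eq_mul, Pi.zero_apply] at b0 b1 b2 hi
      have : (2 - 2 * Real.cos φ) * a 2 * v i = 0 := by
        linear_combination b0 - b2 + 2 * Real.cos φ * b1 + (a 0 * e i + a 1 * f i) * hsc
      rcases mul_eq_zero.1 this with h3 | h3
      · rcases mul_eq_zero.1 h3 with h4 | h4
        · exact absurd (by linarith) hc1
        · exact h4
      · exact absurd h3 hi
    obtain ⟨i, hi⟩ := Function.ne_iff.1 hu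
    have b0 := congrFun ha i
    have b1 := congrFun r1 i
    simp only [Pi.add_apply, Pi.smul_apply, smul_eq_mul, Pi.zero_apply, a2] at b0 b1 hi
    have : Real.sin φ * (a 0 ^ 2 + a 1 ^ 2) * e i = 0 := by
      linear_combination (Real.sin φ * a 0 + Real.cos φ * a 1) * b0 + a 1 * b1
    have a3 : a 0 ^ 2 + a 1 ^ 2 = 0 := by
      rcases mul_eq_zero.1 this with h3 | h3
      · exact (mul_eq_zero.1 h3).resolve_left hs
      · exact absurd h3 hi
    apply ha0
    ext j
    fin_cases j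
    · show a 0 = 0
      nlinarith [sq_nonneg (a 0), sq_nonneg (a 1)]
    · show a 1 = 0
      nlinarith [sq_nonneg (a 0), sq_nonneg (a 1)]
    · exact a2
  have hPu : IsUnit P.det := isUnit_iff_ne_zero.2 hdP
  have hPL : P * P⁻¹ = 1 := mul_nonsing_inv P hPu
  have hLP : P⁻¹ * P = 1 := nonsing_inv_mul P hPu
  have conj : ∀ θ y, (P * rot θ * P⁻¹) *ᵥ y = P *ᵥ (rot θ *ᵥ (P⁻¹ *ᵥ y)) := fun θ y => by
    rw [mulVec_mulVec, mulVec_mulVec]
  have back : ∀ y, P *ᵥ (P⁻¹ *ᵥ y) = y := fun y => by rw [mulVec_mulVec, hPL, one_mulVec]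
  have back' : ∀ y, P⁻¹ *ᵥ (P *ᵥ y) = y := fun y => by rw [mulVec_mulVec, hLP, one_mulVec]
  have hadd : ∀ a b, PresG N (P * rot a * P⁻¹) → PresG N (P * rot b * P⁻¹) →
      PresG N (P * rot (a + b) * P⁻¹) := by
    intro a b ha hb y hy
    have := ha _ (hb y hy)
    rw [conj, conj, back', mulVec_mulVec (P⁻¹ *ᵥ y), ← rot_add, ← conj] at this
    exact this
  have hzero : PresG N (P * rot 0 * P⁻¹) := by
    rw [rot_zero, mul_one, hPL]
    intro y hy
    simpa using hy
  let S : AddSubgroup ℝ :=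
    { carrier := {θ | PresG N (P * rot θ * P⁻¹) ∧ PresG N (P * rot (-θ) * P⁻¹)}
      add_mem' := fun {a b} ha hb => ⟨hadd a b ha.1 hb.1, by
        rw [neg_add]; exact hadd _ _ ha.2 hb.2⟩
      zero_mem' := ⟨hzero, by rw [neg_zero]; exact hzero⟩
      neg_mem' := fun {a} ha => ⟨ha.2, by rw [neg_neg]; exact ha.1⟩ }
  have hcl : IsClosed {θ | PresG N (P * rot θ * P⁻¹)} := by
    simp only [PresG, ofPred_forall]
    refine isClosed_iInter fun y => isClosed_iInter fun _ => ?_
    have c : Continuous fun θ => (P * rot θ * P⁻¹) *ᵥ y :=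
      ((continuous_const.matrix_mul continuous_rot).matrix_mul
        continuous_const).matrix_mulVec continuous_const
    exact isClosed_eq (g.cont.comp c) ((continuous_apply 2).comp c)
  have m1 : φ ∈ S := by
    constructor
    · intro y hy
      rw [conj, ← hMP, back]
      exact h y hy
    · intro y hy
      have e1 : (P * rot (-φ) * P⁻¹) *ᵥ y = M' *ᵥ y := by
        have := hMP (rot (-φ) *ᵥ (P⁻¹ *ᵥ y))
        rw [mulVec_mulVec (P⁻¹ *ᵥ y) (rot φ), ← rot_add, add_neg_cancel, rot_zero, one_mulVec,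
          back, ← conj] at this
        conv_rhs => rw [← this, mulVec_mulVec, hMM, one_mulVec]
      rw [e1]
      exact h' y hy
  have m2 : 2 * Real.pi ∈ S := by
    have r1 : rot (2 * Real.pi) = rot 0 := by simp [rot]
    have r2 : rot (-(2 * Real.pi)) = rot 0 := by simp [rot]
    exact ⟨by rw [r1]; exact hzero, by rw [r2]; exact hzero⟩
  have hd : Dense {θ | PresG N (P * rot θ * P⁻¹)} := by
    refine (dense_addSubgroupClosure_pair_iff.2 hφ).mono fun θ hθ => ?_
    have : AddSubgroup.closure {φ, 2 * Real.pi} ≤ S := by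
      rw [AddSubgroup.closure_le]
      exact pair_subset m1 m2
    exact (this hθ).1
  refine g.conic_of_rot hPL hLP ?_ fun θ => ?_
  · rw [hP]
    simpa using hv
  · have := hd θ
    rwa [hcl.closure_eq] at this

end Pool.Agent.Lib.MP_2f98a8_gt
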