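import Mathlib
import Pool.Agent.Lib.MP_2f98a8_gt.Elliptic

/-!
A path of automorphisms of the double cone that winds around forces a quadratic cone.
-/

namespace Pool.Agent.Lib.MP_2f98a8_gt

open Set Filter Topology Matrix Real

variable {N : V → ℝ}

/-- The double boundary cone. -/
def DCone (N : V → ℝ) (y : V) : Prop := N y = y 2 ∨ N (-y) = (-y) 2

/-- The boundary point in direction `φ`. -/
noncomputable def bpt (N : V → ℝ) (φ : ℝ) : V := ![cos φ, sin φ, N ![cos φ, sin φ, 0]]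

lemma IsGauge.bpt_mem (g : IsGauge N) (φ : ℝ) : N (bpt N φ) = bpt N φ 2 := g.indep _ _ rfl rfl

lemma bpt_ne (φ : ℝ) : bpt N φ ≠ 0 := by
  intro h
  have h0 : cos φ = 0 := congrFun h 0
  have h1 : sin φ = 0 := congrFun h 1
  have := sin_sq_add_cos_sq φ
  rw [h0, h1] at this
  norm_num at this

lemma IsGauge.continuous_bpt (g : IsGauge N) : Continuous (bpt N) := by
  refine continuous_pi fun i => ?_
  fin_cases i
  · exact continuous_cos
  · exact continuous_sin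
  · refine g.cont.comp (continuous_pi fun j => ?_)
    fin_cases j
    · exact continuous_cos
    · exact continuous_sin
    · exact continuous_const

lemma IsGauge.dcone_snd_ne (g : IsGauge N) {y : V} (hy : DCone N y) (h0 : y ≠ 0) : y 2 ≠ 0 := by
  rcases hy with h | h
  · exact (g.snd_pos h.le h0).ne'
  · have := g.snd_pos h.le (neg_ne_zero.2 h0)
    simp only [Pi.neg_apply] at this
    exact ne_of_lt (by linarith)

lemma IsGauge.dcone_ne (g : IsGauge N) {y : V} (hy : DCone N y) (h0 : y ≠ 0) :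
    y 0 ≠ 0 ∨ y 1 ≠ 0 := by
  rcases hy with h | h
  · exact g.ne_of_bdry h h0
  · simpa using g.ne_of_bdry h (neg_ne_zero.2 h0)

lemma pos_of_ne_zero {F : ℝ → ℝ} (hF : Continuous F) (h0 : 0 < F 0) (h : ∀ t, F t ≠ 0) (t : ℝ) :
    0 < F t := by
  by_contra hc
  push Not at hc
  obtain ⟨s, hs⟩ := intermediate_value_univ t 0 hF ⟨hc, h0.le⟩
  exact h s hs

lemma eq_zero_of_int {F : ℝ → ℝ} (hF : Continuous F) (h0 : F 0 = 0)
    (h : ∀ t, ∃ k : ℤ, F t = 2 * π * k) (t : ℝ) : F t = 0 := by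
  have hpi := pi_pos
  have odd : ∀ s, F s ≠ π ∧ F s ≠ -π := by
    intro s
    obtain ⟨k, hk⟩ := h s
    rw [hk]
    constructor
    · intro e
      have : (2 * k : ℝ) = 1 := mul_left_cancel₀ hpi.ne' (by linarith)
      have : 2 * k = 1 := by exact_mod_cast this
      omega
    · intro e
      have : (2 * k : ℝ) = -1 := mul_left_cancel₀ hpi.ne' (by linarith)
      have : 2 * k = -1 := by exact_mod_cast this
      omega
  have h1 := pos_of_ne_zero (F := fun s => π - F s) (by fun_prop) (by simpa [h0] using hpi)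
    (fun s e => (odd s).1 (by linarith)) t
  have h2 := pos_of_ne_zero (F := fun s => π + F s) (by fun_prop) (by simpa [h0] using hpi)
    (fun s e => (odd s).2 (by linarith)) t
  obtain ⟨k, hk⟩ := h t
  have a1 : (2 * k : ℝ) < 1 := lt_of_mul_lt_mul_left (by linarith) hpi.le
  have a2 : (-1 : ℝ) < 2 * k := lt_of_mul_lt_mul_left (by linarith) hpi.le
  have a3 : 2 * k < 1 := by exact_mod_cast a1
  have a4 : -1 < 2 * k := by exact_mod_cast a2
  have : k = 0 := by omega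
  rw [hk, this]
  simp

lemma angle_eq {r s a b : ℝ} (hr : 0 < r) (hs : 0 < s) (h1 : r * cos a = s * cos b)
    (h2 : r * sin a = s * sin b) : ∃ k : ℤ, a - b = 2 * π * k := by
  have e : r = s := by
    have : r ^ 2 = s ^ 2 := by
      linear_combination (r * cos a + s * cos b) * h1 + (r * sin a + s * sin b) * h2 -
        r ^ 2 * sin_sq_add_cos_sq a + s ^ 2 * sin_sq_add_cos_sq b
    exact (pow_left_inj₀ hr.le hs.le two_ne_zero).1 this
  subst e
  exact Angle.angle_eq_iff_two_pi_dvd_sub.1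
    (Angle.cos_sin_inj (mul_left_cancel₀ hr.ne' h1) (mul_left_cancel₀ hr.ne' h2))

lemma cos_sin_of_int {a b : ℝ} {k : ℤ} (h : a - b = 2 * π * k) :
    cos a = cos b ∧ sin a = sin b := by
  have : a = b + k * (2 * π) := by linarith
  rw [this]
  exact ⟨cos_add_int_mul_two_pi _ _, sin_add_int_mul_two_pi _ _⟩

lemma IsGauge.eq_smul (g : IsGauge N) {x y : V} (hx : N x = x 2) (hy : N y = y 2) {c : ℝ}
    (hc : 0 ≤ c) (h0 : x 0 = c * y 0) (h1 : x 1 = c * y 1) : x = c • y := by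
  ext i
  fin_cases i
  · exact h0
  · exact h1
  · show x 2 = (c • y) 2
    rw [← hx, ← g.smulG hc hy]
    exact g.indep _ _ h0 h1

lemma IsGauge.presG_path (g : IsGauge N) {h h' : ℝ → Mat} (hc : Continuous h) (h0 : h 0 = 1)
    (hinv : ∀ τ, h' τ * h τ = 1) (hD : ∀ τ y, DCone N y → DCone N (h τ *ᵥ y)) (τ : ℝ) :
    PresG N (h τ) := by
  intro y hy
  rcases eq_or_ne y 0 with rfl | hy0
  · simp [g.zero]
  have hne : ∀ t, h t *ᵥ y ≠ 0 := fun t e => hy0 (by
    rw [← one_mulVec y, ← hinv t, ← mulVec_mulVec, e, mulVec_zero])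
  have := pos_of_ne_zero (F := fun t => (h t *ᵥ y) 2)
    ((continuous_apply 2).comp (hc.matrix_mulVec continuous_const))
    (by simpa [h0] using g.snd_pos hy.le hy0)
    (fun t => g.dcone_snd_ne (hD t y (Or.inl hy)) (hne t)) τ
  rcases hD τ y (Or.inl hy) with e | e
  · exact e
  · have h2 := g.nonneg (-(h τ *ᵥ y))
    rw [e, Pi.neg_apply] at h2
    linarith

theorem IsGauge.conic_of_winding (g : IsGauge N) {h h' : ℝ → Mat} (hc : Continuous h)
    (hc' : Continuous h') (h0 : h 0 = 1) (hinv : ∀ τ, h' τ * h τ = 1)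
    (hD : ∀ τ y, DCone N y → DCone N (h τ *ᵥ y)) (hD' : ∀ τ y, DCone N y → DCone N (h' τ *ᵥ y))
    {α : ℝ × ℝ → ℝ} (hα : Continuous α)
    (hl : ∀ τ φ, ∃ r > 0, (h τ *ᵥ bpt N φ) 0 = r * cos (α (τ, φ)) ∧
      (h τ *ᵥ bpt N φ) 1 = r * sin (α (τ, φ)))
    (hα0 : ∀ φ, α (0, φ) = φ) {τ₁ : ℝ} (hτ₁ : 0 ≤ τ₁) (hne : ∀ φ, α (τ₁, φ) ≠ φ) :
    IsConic N := by
  have hpi := pi_pos
  have hinv' : ∀ τ, h τ * h' τ = 1 := fun τ => mul_eq_one_comm.1 (hinv τ)
  have h0' : h' 0 = 1 := by simpa [h0] using hinv 0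
  have pG := g.presG_path hc h0 hinv hD
  have pG' := g.presG_path hc' h0' hinv' hD'
  have hdet : ∀ τ, 0 < (h τ).det := pos_of_ne_zero hc.matrix_det (by simp [h0]) fun t e => by
    have := congrArg det (hinv t)
    simp [e] at this
  have per : ∀ τ, Function.Periodic (fun φ => α (τ, φ) - φ) (2 * π) := by
    intro τ φ
    have := eq_zero_of_int (F := fun t => α (t, φ + 2 * π) - α (t, φ) - 2 * π) (by fun_prop)
      (by simp [hα0]) (fun t => by
        obtain ⟨r, hr, a1, a2⟩ := hl t (φ + 2 * π)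
        obtain ⟨s, hs, b1, b2⟩ := hl t φ
        have e : bpt N (φ + 2 * π) = bpt N φ := by simp [bpt]
        rw [e] at a1 a2
        obtain ⟨k, hk⟩ := angle_eq hr hs (a1.symm.trans b1) (a2.symm.trans b2)
        exact ⟨k - 1, by push_cast; linarith⟩) τ
    simp only at this ⊢
    linarith
  have inj : ∀ τ φ₁ φ₂ (k : ℤ), α (τ, φ₁) - α (τ, φ₂) = 2 * π * k →
      ∃ j : ℤ, φ₁ - φ₂ = 2 * π * j := by
    intro τ φ₁ φ₂ k hk
    obtain ⟨r, hr, a1, a2⟩ := hl τ φ₁
    obtain ⟨s, hs, b1, b2⟩ := hl τ φ₂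
    obtain ⟨c1, c2⟩ := cos_sin_of_int hk
    have e := g.eq_smul (pG τ _ (g.bpt_mem φ₁)) (pG τ _ (g.bpt_mem φ₂)) (c := r / s)
      (by positivity) (by rw [a1, b1, c1]; field_simp) (by rw [a2, b2, c2]; field_simp)
    have e2 := congrArg (fun y => h' τ *ᵥ y) e
    simp only [mulVec_smul, mulVec_mulVec, hinv, one_mulVec] at e2
    refine angle_eq one_pos (show 0 < r / s by positivity) ?_ ?_
    · simpa [bpt] using congrFun e2 0
    · simpa [bpt] using congrFun e2 1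
  let K : Set (ℝ × ℝ) := (Icc 0 τ₁ ×ˢ Icc 0 (2 * π)) ∩ {p | α p = p.2}
  have hK : IsCompact K :=
    (isCompact_Icc.prod isCompact_Icc).inter_right (isClosed_eq hα continuous_snd)
  obtain ⟨⟨τ₀, φ₀⟩, ⟨⟨⟨t1, t2⟩, -⟩, hfix⟩, hmax⟩ := hK.exists_isMaxOn
    ⟨(0, 0), ⟨⟨le_rfl, hτ₁⟩, le_rfl, by positivity⟩, hα0 0⟩ continuous_fst.continuousOn
  simp only [mem_ofPred_eq] at t1 t2 hfix
  have t3 : τ₀ < τ₁ := lt_of_le_of_ne t2 fun e => hne φ₀ (e ▸ hfix)
  have nofix : ∀ τ, τ₀ < τ → τ ≤ τ₁ → ∀ φ, α (τ, φ) - φ ≠ 0 := by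
    intro τ a1 a2 φ e
    obtain ⟨ψ, hψ, e'⟩ := (per τ).exists_mem_Ico₀ (by positivity) φ
    have := hmax (show (τ, ψ) ∈ K from ⟨⟨⟨t1.trans a1.le, a2⟩, hψ.1, hψ.2.le⟩, by
      simp only [mem_ofPred_eq] at e' ⊢; linarith⟩)
    simp only [mem_ofPred_eq] at this
    linarith
  have small : ∀ φ, |α (τ₀, φ) - φ| < 2 * π := by
    intro φ
    obtain ⟨ψ, hψ, e'⟩ := (per τ₀).exists_mem_Ico (by positivity) φ φ₀
    rw [e', abs_lt]
    have cα : Continuous fun s => α (τ₀, s) := by fun_prop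
    have hend : α (τ₀, φ₀ + 2 * π) = φ₀ + 2 * π := by
      have := per τ₀ φ₀
      simp only at this
      linarith
    have noint : ∀ s, φ₀ < s → s < φ₀ + 2 * π → ∀ k : ℤ, α (τ₀, s) - φ₀ ≠ 2 * π * k := by
      intro s s1 s2 k e
      obtain ⟨j, hj⟩ := inj τ₀ s φ₀ k (by rw [hfix]; exact e)
      have a1 : (0 : ℝ) < j := pos_of_mul_pos_right (a := 2 * π) (by linarith) (by positivity)
      have a2 : (j : ℝ) < 1 := lt_of_mul_lt_mul_left (a := 2 * π) (by linarith) (by positivity)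
      have a3 : 0 < j := by exact_mod_cast a1
      have a4 : j < 1 := by exact_mod_cast a2
      omega
    have up : α (τ₀, ψ) < φ₀ + 2 * π := by
      by_contra hcon
      push Not at hcon
      obtain ⟨s, hs, es⟩ := intermediate_value_Icc hψ.1 cα.continuousOn
        (show φ₀ + 2 * π ∈ Icc _ _ from ⟨by rw [hfix]; linarith, hcon⟩)
      simp only at es
      have : s ≠ φ₀ := by
        rintro rfl
        linarith
      exact noint s (lt_of_le_of_ne hs.1 this.symm) (hs.2.trans_lt hψ.2) 1 (by simp; linarith)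
    have low : φ₀ ≤ α (τ₀, ψ) := by
      by_contra hcon
      push Not at hcon
      obtain ⟨s, hs, es⟩ := intermediate_value_Icc hψ.2.le cα.continuousOn
        (show φ₀ ∈ Icc _ _ from ⟨hcon.le, by rw [hend]; linarith⟩)
      simp only at es
      have s1 : s ≠ φ₀ + 2 * π := by
        rintro rfl
        linarith
      have s2 : ψ ≠ φ₀ := by
        rintro rfl
        linarith
      exact noint s ((lt_of_le_of_ne hψ.1 s2.symm).trans_le hs.1) (lt_of_le_of_ne hs.2 s1) 0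
        (by simp; linarith)
    constructor <;> linarith [hψ.1, hψ.2]
  have near : ∀ᶠ τ in 𝓝 τ₀, ∀ φ ∈ Icc 0 (2 * π), |α (τ, φ) - φ| < 2 * π := by
    refine isCompact_Icc.eventually_forall_of_forall_eventually fun φ _ => ?_
    exact (isOpen_lt (f := fun p : ℝ × ℝ => |α p - p.2|) (by fun_prop)
      continuous_const).mem_nhds (small φ)
  obtain ⟨δ, hδ, hnear⟩ := Metric.eventually_nhds_iff.1 near
  set τ₂ := min (τ₀ + δ / 2) τ₁ with hτ₂
  have u1 : τ₀ < τ₂ := lt_min (by linarith) t3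
  let s : ℝ → ℝ := fun τ => (h τ).det ^ (1 / 3 : ℝ)
  have s0 : ∀ τ, 0 < s τ := fun τ => rpow_pos_of_pos (hdet τ) _
  have s3 : ∀ τ, s τ ^ 3 = (h τ).det := fun τ => by
    simp only [s]
    rw [← rpow_natCast, ← rpow_mul (hdet τ).le]
    norm_num
  have sc : Continuous s := hc.matrix_det.rpow_const fun τ => Or.inl (hdet τ).ne'
  let M : ℝ → Mat := fun τ => (s τ)⁻¹ • h τ
  let M' : ℝ → Mat := fun τ => s τ • h' τ
  have Mc : Continuous M := (sc.inv₀ fun τ => (s0 τ).ne').smul hc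
  have MM : ∀ τ, M' τ * M τ = 1 := fun τ => by
    simp only [M, M', Matrix.smul_mul, Matrix.mul_smul, smul_smul, hinv,
      inv_mul_cancel₀ (s0 τ).ne', one_smul]
  have Md : ∀ τ, (M τ).det = 1 := fun τ => by
    simp only [M, det_smul, Fintype.card_fin, ← s3, inv_pow]
    exact inv_mul_cancel₀ (pow_pos (s0 τ) 3).ne'
  have MG : ∀ τ, PresG N (M τ) := fun τ => (pG τ).smul g (inv_pos.2 (s0 τ)).le
  have MG' : ∀ τ, PresG N (M' τ) := fun τ => (pG' τ).smul g (s0 τ).le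
  have hno : ∀ τ, τ₀ < τ → τ ≤ τ₂ →
      ∀ b : V, N b = b 2 → b ≠ 0 → ∀ μ : ℝ, M τ *ᵥ b ≠ μ • b := by
    intro τ a1 a2 b hb hb0 μ e
    have hb2 := g.snd_pos hb.le hb0
    have hμ : 0 < μ := by
      have e0 : M τ *ᵥ b ≠ 0 := fun e0 => hb0 (by
        rw [← one_mulVec b, ← MM τ, ← mulVec_mulVec, e0, mulVec_zero])
      have := g.snd_pos (MG τ b hb).le e0
      rw [e, Pi.smul_apply, smul_eq_mul] at this
      exact pos_of_mul_pos_left this hb2.le
    let z : ℂ := ⟨b 0, b 1⟩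
    have hz : 0 < ‖z‖ := by
      rw [norm_pos_iff]
      intro e0
      rcases g.ne_of_bdry hb hb0 with e1 | e1
      · exact e1 (congrArg Complex.re e0)
      · exact e1 (congrArg Complex.im e0)
    have eb : b = ‖z‖ • bpt N z.arg :=
      g.eq_smul hb (g.bpt_mem _) hz.le (Complex.norm_mul_cos_arg z).symm
        (Complex.norm_mul_sin_arg z).symm
    have e2 : h τ *ᵥ bpt N z.arg = (s τ * μ) • bpt N z.arg := by
      rw [eb, mulVec_smul, smul_comm μ, smul_right_inj hz.ne', smul_mulVec,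
        inv_smul_eq_iff₀ (s0 τ).ne', smul_smul] at e
      exact e
    obtain ⟨r, hr, b1, b2⟩ := hl τ z.arg
    rw [e2] at b1 b2
    obtain ⟨k, hk⟩ := angle_eq hr (mul_pos (s0 τ) hμ) b1.symm b2.symm
    obtain ⟨ψ, hψ, e'⟩ := (per τ).exists_mem_Ico₀ (by positivity) z.arg
    have c1 := hnear (y := τ) (by
      rw [Real.dist_eq, abs_lt]
      constructor <;> linarith [min_le_left (τ₀ + δ / 2) τ₁]) ψ ⟨hψ.1, hψ.2.le⟩
    rw [← e', hk, abs_lt] at c1
    have c2 : (k : ℝ) < 1 := lt_of_mul_lt_mul_left (a := 2 * π) (by linarith) (by positivity)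
    have c3 : (-1 : ℝ) < k := lt_of_mul_lt_mul_left (a := 2 * π) (by linarith) (by positivity)
    have c4 : k < 1 := by exact_mod_cast c2
    have c5 : -1 < k := by exact_mod_cast c3
    have c6 : k = 0 := by omega
    exact nofix τ a1 (a2.trans (min_le_right _ _)) z.arg (by rw [hk, c6]; simp)
  have fixed : ∀ τ, τ₀ < τ → τ ≤ τ₂ → ∃ v : V, N v < v 2 ∧ M τ *ᵥ v = v := fun τ a1 a2 =>
    g.exists_fixed (MM τ) (g.presO (MG τ)) (g.presO (MG' τ)) (Md τ) (hno τ a1 a2)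
  have d0 : (M τ₀ - 1).det = 0 := by
    have hcl : IsClosed {τ | (M τ - 1).det = 0} :=
      isClosed_eq (Mc.sub continuous_const).matrix_det continuous_const
    have : Ioc τ₀ τ₂ ⊆ {τ | (M τ - 1).det = 0} := by
      intro τ hτ
      obtain ⟨v, hv, hM⟩ := fixed τ hτ.1 hτ.2
      refine det_sub_one_of_fixed ?_ hM
      rintro rfl
      simp [g.zero] at hv
    have h2 := hcl.closure_subset_iff.2 this
    rw [closure_Ioc u1.ne] at h2
    exact h2 ⟨le_rfl, u1.le⟩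
  have T0 : 3 ≤ (M τ₀).trace := by
    obtain ⟨r, hr, b1, b2⟩ := hl τ₀ φ₀
    rw [hfix] at b1 b2
    have e := g.eq_smul (pG τ₀ _ (g.bpt_mem φ₀)) (g.bpt_mem φ₀) hr.le b1 b2
    refine g.three_le_trace (mul_eq_one_comm.1 (MM τ₀)) (g.presO (MG τ₀)) (g.presO (MG' τ₀))
      (Md τ₀) d0 (g.bpt_mem φ₀) (bpt_ne φ₀) (μ := (s τ₀)⁻¹ * r)
      (mul_pos (inv_pos.2 (s0 _)) hr) ?_
    rw [smul_mulVec, e, smul_smul]
  have T2 : (M τ₂).trace < 3 := by
    obtain ⟨v, hv, hM⟩ := fixed τ₂ u1 le_rfl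
    exact g.trace_lt_three (g.presO (MG τ₂)) (Md τ₂) hv hM (hno τ₂ u1 le_rfl)
  obtain ⟨n, hn⟩ : ∃ n : ℕ, (M τ₂).trace < 1 + 2 * cos (1 / ((n : ℝ) + 1)) := by
    have : Tendsto (fun n : ℕ => 1 + 2 * cos (1 / ((n : ℝ) + 1))) atTop (𝓝 (1 + 2 * cos 0)) :=
      ((continuous_cos.tendsto 0).comp tendsto_one_div_add_atTop_nhds_zero_nat).const_mul 2
        |>.const_add 1
    exact (this.eventually (lt_mem_nhds (by simp; linarith))).exists
  have p1 : 0 < 1 / ((n : ℝ) + 1) := by positivity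
  have p2 : 1 / ((n : ℝ) + 1) < π := by
    have : 1 / ((n : ℝ) + 1) ≤ 1 := by
      rw [div_le_one (by positivity)]
      linarith [(Nat.cast_nonneg n : (0 : ℝ) ≤ n)]
    linarith [pi_gt_three]
  have p3 := sin_pos_of_pos_of_lt_pi p1 p2
  have p4 : cos (1 / ((n : ℝ) + 1)) < 1 := by
    have := sin_sq_add_cos_sq (1 / ((n : ℝ) + 1))
    nlinarith
  have p5 : Irrational (1 / ((n : ℝ) + 1) / (2 * π)) := by
    have := (irrational_pi.natCast_mul (m := 2 * (n + 1)) (by omega)).inv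
    have e : (1 / ((n : ℝ) + 1) / (2 * π)) = (((2 * (n + 1) : ℕ) : ℝ) * π)⁻¹ := by
      push_cast
      field_simp
    rwa [e]
  obtain ⟨τ, hτ, eτ⟩ := intermediate_value_Icc' u1.le Mc.matrix_trace.continuousOn
    (show 1 + 2 * cos (1 / ((n : ℝ) + 1)) ∈ Icc _ _ from ⟨hn.le, by linarith⟩)
  simp only at eτ
  have : τ₀ < τ := lt_of_le_of_ne hτ.1 (by
    rintro rfl
    linarith)
  obtain ⟨v, hv, hM⟩ := fixed τ this hτ.2
  exact g.conic_of_irrational (MM τ) (MG τ) (MG' τ) (Md τ) hv hM p5 p3.ne' eτ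

end Pool.Agent.Lib.MP_2f98a8_gt
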