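import Mathlib
import Pool.Agent.Lib.MP_2f98a8_gt.Winding
import Pool.Agent.Lib.MP_2f98a8_gt.Square

/-!
A twisted family of linearly equivalent double cones over the disc consists of quadratic cones.
-/

namespace Pool.Agent.Lib.MP_2f98a8_gt

open Set Filter Topology Matrix Real

lemma DCone.neg_iff {N : V → ℝ} {y : V} : DCone N (-y) ↔ DCone N y := by
  simp only [DCone, neg_neg]
  exact or_comm

lemma dcone_closed {N : ℝ × ℝ → V → ℝ} (g : ∀ w, IsGauge (N w))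
    (hc : Continuous fun p : (ℝ × ℝ) × V => N p.1 p.2) {hk : ℕ → Mat} {xk yk : ℕ → ℝ × ℝ}
    {h : Mat} {x y : ℝ × ℝ} (t1 : Tendsto hk atTop (𝓝 h)) (t2 : Tendsto xk atTop (𝓝 x))
    (t3 : Tendsto yk atTop (𝓝 y))
    (H : ∀ᶠ k in atTop, ∀ v, DCone (N (xk k)) v → DCone (N (yk k)) (hk k *ᵥ v)) (v : V)
    (hv : DCone (N x) v) : DCone (N y) (h *ᵥ v) := by
  have main : ∀ v, N x v = v 2 → DCone (N y) (h *ᵥ v) := by
    intro v hv
    have hcl : IsClosed {p : (ℝ × ℝ) × V | DCone (N p.1) p.2} := by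
      refine IsClosed.union (isClosed_eq hc (by fun_prop)) (isClosed_eq ?_ (by fun_prop))
      exact hc.comp (continuous_fst.prodMk continuous_snd.neg)
    have t4 : Tendsto (fun k => (![v 0, v 1, N (xk k) v] : V)) atTop (𝓝 v) := by
      rw [tendsto_pi_nhds]
      intro i
      fin_cases i
      · exact tendsto_const_nhds
      · exact tendsto_const_nhds
      · have := (hc.tendsto (x, v)).comp (t2.prodMk_nhds tendsto_const_nhds)
        rw [hv] at this
        exact this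
    have t5 : Tendsto (fun k => hk k *ᵥ (![v 0, v 1, N (xk k) v] : V)) atTop (𝓝 (h *ᵥ v)) := by
      have c : Continuous fun p : Mat × V => p.1 *ᵥ p.2 :=
        continuous_fst.matrix_mulVec continuous_snd
      exact (c.tendsto (h, v)).comp (t1.prodMk_nhds t4)
    refine hcl.mem_of_tendsto (t3.prodMk_nhds t5) ?_
    filter_upwards [H] with k hk
    exact hk _ (Or.inl ((g _).indep _ _ rfl rfl))
  rcases hv with hv | hv
  · exact main v hv
  · have := main (-v) hv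
    rwa [mulVec_neg, DCone.neg_iff] at this

open scoped Matrix.Norms.Operator in
lemma exists_family_section {N : ℝ × ℝ → V → ℝ} (g : ∀ w, IsGauge (N w))
    (hc : Continuous fun p : (ℝ × ℝ) × V => N p.1 p.2)
    (heq : ∀ x y, ∃ M : Mat, IsUnit M ∧ ∀ v, DCone (N x) v ↔ DCone (N y) (M *ᵥ v)) :
    ∃ σ : ℝ × ℝ → Mat, Continuous σ ∧ σ (1, 0) = 1 ∧
      (∀ x, ∃ y, IsUnit (σ x) ∧ ∀ v, DCone (N (1, 0)) v ↔ DCone (N y) (σ x *ᵥ v)) ∧
      ∀ x ∈ Icc (-1 : ℝ) 1 ×ˢ Icc (-1 : ℝ) 1,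
        IsUnit (σ x) ∧ ∀ v, DCone (N (1, 0)) v ↔ DCone (N x) (σ x *ᵥ v) := by
  have inv : ∀ {h : Mat} {x y}, (IsUnit h ∧ ∀ v, DCone (N x) v ↔ DCone (N y) (h *ᵥ v)) →
      (IsUnit (Ring.inverse h) ∧ ∀ v, DCone (N y) v ↔ DCone (N x) (Ring.inverse h *ᵥ v)) := by
    rintro h x y ⟨hu, hh⟩
    refine ⟨hu.ringInverse, fun v => ?_⟩
    rw [hh, mulVec_mulVec, Ring.mul_inverse_cancel _ hu, one_mulVec]
  have G : IsGroupoid (A := Mat)
      (fun h x y => IsUnit h ∧ ∀ v, DCone (N x) v ↔ DCone (N y) (h *ᵥ v)) :=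
    { unit := fun h => h.1
      one := fun x => ⟨isUnit_one, fun v => by rw [one_mulVec]⟩
      mul := fun h1 h2 => ⟨h1.1.mul h2.1, fun v => by rw [h2.2, h1.2, mulVec_mulVec]⟩
      inv := inv
      closed := by
        intro hk xk yk h x y t1 hu t2 t3 H
        refine ⟨hu, fun v => ⟨fun hv => ?_, fun hv => ?_⟩⟩
        · exact dcone_closed g hc t1 t2 t3 (H.mono fun k hk v => (hk.2 v).1) v hv
        · have := dcone_closed g hc (tendsto_inverse hu t1) t3 t2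
            (H.mono fun k hk v => ((inv hk).2 v).1) _ hv
          rwa [mulVec_mulVec, Ring.inverse_mul_cancel _ hu, one_mulVec] at this
      trans := heq }
  exact G.exists_global (1, 0) ⟨⟨by norm_num, le_rfl⟩, by norm_num, by norm_num⟩

lemma exists_angle {F : (ℝ × ℝ) × ℝ → V} (hF : Continuous F) (h : ∀ p, F p 0 ≠ 0 ∨ F p 1 ≠ 0)
    (h0 : F ((1, 0), 0) 0 = 1) (h1 : F ((1, 0), 0) 1 = 0) :
    ∃ a : (ℝ × ℝ) × ℝ → ℝ, Continuous a ∧ a ((1, 0), 0) = 0 ∧
      ∀ p, ∃ r > 0, F p 0 = r * cos (a p) ∧ F p 1 = r * sin (a p) := by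
  let Θ : C((ℝ × ℝ) × ℝ, {z : ℂ // z ≠ 0}) :=
    ⟨fun p => ⟨(F p 0 : ℂ) + (F p 1 : ℂ) * Complex.I, fun e => by
      rcases h p with e1 | e1
      · exact e1 (by simpa using congrArg Complex.re e)
      · exact e1 (by simpa using congrArg Complex.im e)⟩,
      Continuous.subtype_mk (by fun_prop) _⟩
  obtain ⟨L, ⟨hL0, hL⟩, -⟩ := Complex.isCoveringMap_exp.existsUnique_continuousMap_lifts Θ
    ((1, 0), 0) 0 (Subtype.ext (by simp [Θ, h0, h1]))
  refine ⟨fun p => (L p).im, by fun_prop, by simp [hL0], fun p => ?_⟩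
  have e : Complex.exp (L p) = (F p 0 : ℂ) + (F p 1 : ℂ) * Complex.I :=
    congrArg Subtype.val (congrFun hL p)
  refine ⟨Real.exp (L p).re, Real.exp_pos _, ?_, ?_⟩
  · rw [← Complex.exp_re, e]; simp
  · rw [← Complex.exp_im, e]; simp

theorem conic_of_family {N : ℝ × ℝ → V → ℝ} (g : ∀ w, IsGauge (N w))
    (hc : Continuous fun p : (ℝ × ℝ) × V => N p.1 p.2)
    (heq : ∀ x y, ∃ M : Mat, IsUnit M ∧ ∀ v, DCone (N x) v ↔ DCone (N y) (M *ᵥ v))
    (hrot : ∀ τ v, N (cos τ, sin τ) v = N (1, 0) (rot (2 * τ) *ᵥ v)) : IsConic (N (1, 0)) := by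
  obtain ⟨σ, σc, σ1, σD, σR⟩ := exists_family_section g hc heq
  have g0 := g (1, 0)
  have circ : ∀ τ, IsUnit (σ (cos τ, sin τ)) ∧
      ∀ v, DCone (N (1, 0)) v ↔ DCone (N (cos τ, sin τ)) (σ (cos τ, sin τ) *ᵥ v) := fun τ =>
    σR _ ⟨⟨neg_one_le_cos τ, cos_le_one τ⟩, neg_one_le_sin τ, sin_le_one τ⟩
  have drot : ∀ τ v, DCone (N (cos τ, sin τ)) v ↔ DCone (N (1, 0)) (rot (2 * τ) *ᵥ v) := by
    intro τ v
    have e : ∀ u : V, (rot (2 * τ) *ᵥ u) 2 = u 2 := fun u => by rw [rot_mulVec]; rfl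
    simp only [DCone, hrot, mulVec_neg, Pi.neg_apply, e]
  let h : ℝ → Mat := fun τ => rot (2 * τ) * σ (cos τ, sin τ)
  have hc1 : Continuous h :=
    (continuous_rot.comp (by fun_prop)).matrix_mul (σc.comp (by fun_prop))
  have hD : ∀ τ v, DCone (N (1, 0)) v ↔ DCone (N (1, 0)) (h τ *ᵥ v) := fun τ v => by
    rw [(circ τ).2, drot, mulVec_mulVec]
  have hu : ∀ τ, IsUnit (h τ).det := fun τ => by
    rw [← isUnit_iff_isUnit_det]
    refine IsUnit.mul ?_ (circ τ).1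
    exact IsUnit.of_mul_eq_one (rot (-(2 * τ))) (by rw [← rot_add, add_neg_cancel, rot_zero])
  have hc2 : Continuous fun τ => (h τ)⁻¹ := by
    simp only [inv_def, Ring.inverse_eq_inv']
    exact (hc1.matrix_det.inv₀ fun τ => (hu τ).ne_zero).smul hc1.matrix_adjugate
  obtain ⟨a, ac, a0, ha⟩ := exists_angle (F := fun p => σ p.1 *ᵥ bpt (N (1, 0)) p.2)
    ((σc.comp continuous_fst).matrix_mulVec (g0.continuous_bpt.comp continuous_snd))
    (fun p => by
      obtain ⟨y, hu, hy⟩ := σD p.1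
      refine (g y).dcone_ne ((hy _).1 (Or.inl (g0.bpt_mem _))) fun e => bpt_ne (N := N (1, 0)) p.2 ?_
      rw [← one_mulVec (bpt _ _), ← Ring.inverse_mul_cancel _ hu, ← mulVec_mulVec, e, mulVec_zero])
    (by simp [σ1, bpt]) (by simp [σ1, bpt])
  have a1 : ∀ φ, a ((1, 0), φ) = φ := by
    intro φ
    have := eq_zero_of_int (F := fun t => a ((1, 0), t) - t) (by fun_prop) (by simp [a0])
      (fun t => by
        obtain ⟨r, hr, b1, b2⟩ := ha ((1, 0), t)
        simp only [σ1, one_mulVec] at b1 b2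
        exact angle_eq hr one_pos (by rw [one_mul]; exact b1.symm)
          (by rw [one_mul]; exact b2.symm)) φ
    linarith
  refine g0.conic_of_winding (h := h) (h' := fun τ => (h τ)⁻¹) hc1 hc2
    (by simp [h, σ1, rot_zero]) (fun τ => nonsing_inv_mul _ (hu τ)) (fun τ v => (hD τ v).1)
    (fun τ v hv => ?_) (α := fun p => 2 * p.1 + a ((cos p.1, sin p.1), p.2)) (by fun_prop)
    (fun τ φ => ?_) (fun φ => by simp [a1]) (τ₁ := 2 * π) (by positivity) (fun φ => ?_)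
  · rwa [hD τ, mulVec_mulVec, mul_nonsing_inv _ (hu τ), one_mulVec]
  · obtain ⟨r, hr, b1, b2⟩ := ha ((cos τ, sin τ), φ)
    simp only at b1 b2
    refine ⟨r, hr, ?_, ?_⟩
    · simp only [h, ← mulVec_mulVec, rot_mulVec, cons_val_zero, b1, b2, cos_add]
      ring
    · simp only [h, ← mulVec_mulVec, rot_mulVec, cons_val_one, cons_val_zero, b1, b2, sin_add]
      ring
  · simp only [cos_two_pi, sin_two_pi, a1]
    linarith [pi_pos]

end Pool.Agent.Lib.MP_2f98a8_gt
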