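import Mathlib
import Pool.Agent.Lib.MP_2f98a8_gt.Family

/-!
A convex body all of whose sections through an interior point are conics is an ellipsoid.
-/

namespace Pool.Agent.Lib.MP_2f98a8_gt

open Set Filter Topology Matrix Real

/-- Euclidean three-space. -/
abbrev E3 := EuclideanSpace ℝ (Fin 3)

lemma exists_sqrt_form (Q : QuadraticForm ℝ E3) (hQ : ∀ x, x ≠ 0 → 0 < Q x) :
    ∃ S : E3 ≃ₗ[ℝ] E3, ∀ x, Q x = ‖S x‖ ^ 2 := by
  obtain ⟨w, ⟨e⟩⟩ := Q.equivalent_weightedSumSquares
  have hn : Module.finrank ℝ E3 = 3 := by simp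
  have hw : ∀ i, 0 < w i := by
    intro i
    have h1 := e.map_app (e.toLinearEquiv.symm (Pi.single i 1))
    have h2 : e (e.toLinearEquiv.symm (Pi.single i 1)) = Pi.single i 1 :=
      e.toLinearEquiv.apply_symm_apply _
    rw [h2, QuadraticMap.weightedSumSquares_apply, Finset.sum_eq_single i
      (fun j _ hj => by simp [hj]) (by simp)] at h1
    have h3 := hQ (e.toLinearEquiv.symm (Pi.single i 1)) (by simp)
    rw [← h1] at h3
    simpa using h3
  let f : E3 →ₗ[ℝ] E3 :=
    { toFun := fun x => WithLp.toLp 2 fun j =>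
        √(w (Fin.cast hn.symm j)) * e.toLinearEquiv x (Fin.cast hn.symm j)
      map_add' := fun x y => by ext j; simp [mul_add]
      map_smul' := fun c x => by ext j; simp; ring }
  have hf : ∀ x, Q x = ‖f x‖ ^ 2 := by
    intro x
    rw [← e.map_app, QuadraticMap.weightedSumSquares_apply, EuclideanSpace.real_norm_sq_eq,
      ← (finCongr hn.symm).sum_comp]
    refine Finset.sum_congr rfl fun j _ => ?_
    simp only [f, LinearMap.coe_mk, AddHom.coe_mk, finCongr_apply, smul_eq_mul, mul_pow,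
      sq_sqrt (hw _).le]
    rw [sq]
    rfl
  refine ⟨f.linearEquivOfInjective ?_ rfl, hf⟩
  rw [injective_iff_map_eq_zero]
  intro x hx
  by_contra h0
  have := hQ x h0
  rw [hf, hx] at this
  simp at this

theorem ellipsoid_of_planar {G : E3 → ℝ} (pos : ∀ x, x ≠ 0 → 0 < G x)
    (hom : ∀ c : ℝ, 0 ≤ c → ∀ x, G (c • x) = c * G x)
    (planar : ∀ a b : E3, LinearIndependent ℝ ![a, b] → ∃ p q A B C : ℝ, ∀ s t : ℝ,
      G (s • a + t • b) - G (-(s • a + t • b)) = p * s + q * t ∧
      G (s • a + t • b) * G (-(s • a + t • b)) = A * s ^ 2 + B * s * t + C * t ^ 2) :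
    ∃ A : E3 ≃ᵃ[ℝ] E3, {x | G x ≤ 1} = A '' Metric.closedBall 0 1 := by
  have G0 : G 0 = 0 := by simpa using hom 0 le_rfl 0
  have nn : ∀ x, 0 ≤ G x := fun x => by
    rcases eq_or_ne x 0 with rfl | h
    · exact G0.ge
    · exact (pos x h).le
  have line : ∀ (c : ℝ) x, G (c • x) - G (-(c • x)) = c * (G x - G (-x)) ∧
      G (c • x) * G (-(c • x)) = c ^ 2 * (G x * G (-x)) := by
    intro c x
    rcases le_total 0 c with hc | hc
    · rw [← smul_neg, hom c hc, hom c hc]
      constructor <;> ring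
    · rw [← neg_smul, hom (-c) (by linarith), ← neg_smul_neg, hom (-c) (by linarith)]
      constructor <;> ring
  have planar' : ∀ a b : E3, ∃ p q A B C : ℝ, ∀ s t : ℝ,
      G (s • a + t • b) - G (-(s • a + t • b)) = p * s + q * t ∧
      G (s • a + t • b) * G (-(s • a + t • b)) = A * s ^ 2 + B * s * t + C * t ^ 2 := by
    intro a b
    by_cases h : LinearIndependent ℝ ![a, b]
    · exact planar a b h
    rcases eq_or_ne a 0 with rfl | ha
    · refine ⟨0, G b - G (-b), 0, 0, G b * G (-b), fun s t => ?_⟩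
      rw [smul_zero, zero_add, (line t b).1, (line t b).2]
      constructor <;> ring
    · rw [LinearIndependent.pair_iff' ha] at h
      push Not at h
      obtain ⟨c, rfl⟩ := h
      refine ⟨G a - G (-a), c * (G a - G (-a)), G a * G (-a), 2 * c * (G a * G (-a)),
        c ^ 2 * (G a * G (-a)), fun s t => ?_⟩
      rw [smul_smul, ← add_smul, (line _ a).1, (line _ a).2]
      constructor <;> ring
  let l : E3 →ₗ[ℝ] ℝ :=
    { toFun := fun x => G x - G (-x)
      map_add' := fun x y => by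
        obtain ⟨p, q, A, B, C, h⟩ := planar' x y
        have h1 := (h 1 1).1
        have h2 := (h 1 0).1
        have h3 := (h 0 1).1
        simp only [one_smul, zero_smul, add_zero, zero_add] at h1 h2 h3
        linarith
      map_smul' := fun c x => (line c x).1 }
  let q : E3 → ℝ := fun x => G x * G (-x)
  have par : ∀ x y, q (x + y) + q (x - y) = 2 * q x + 2 * q y := by
    intro x y
    obtain ⟨p, q', A, B, C, h⟩ := planar' x y
    have h1 := (h 1 1).2
    have h2 := (h 1 0).2
    have h3 := (h 0 1).2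
    have h4 := (h 1 (-1)).2
    simp only [one_smul, zero_smul, add_zero, zero_add, neg_smul, ← sub_eq_add_neg] at h1 h2 h3 h4
    simp only [q]
    linarith
  let Q : QuadraticForm ℝ E3 := QuadraticMap.ofPolar q
    (fun c x => by simp only [q, (line c x).2, smul_eq_mul]; ring)
    (fun x y z => by
      have h1 := par (x + z) y
      have h2 := par (y + z) x
      have h3 := par z (x - y)
      have h4 := par x y
      have e1 : x + z + y = x + y + z := by abel
      have e2 : y + z + x = x + y + z := by abel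
      have e3 : z + (x - y) = x + z - y := by abel
      have e4 : z - (x - y) = y + z - x := by abel
      rw [e1] at h1
      rw [e2] at h2
      rw [e3, e4] at h3
      simp only [QuadraticMap.polar]
      linarith)
    (fun c x y => by
      obtain ⟨p, q', A, B, C, h⟩ := planar' x y
      have h1 := (h 1 1).2
      have h2 := (h 1 0).2
      have h3 := (h 0 1).2
      have h4 := (h c 1).2
      have h5 := (h c 0).2
      simp only [one_smul, zero_smul, add_zero, zero_add] at h1 h2 h3 h4 h5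
      simp only [QuadraticMap.polar, q, smul_eq_mul]
      rw [h1, h2, h3, h4, h5]
      ring)
  obtain ⟨S, hS⟩ := exists_sqrt_form Q fun x hx => mul_pos (pos x hx) (pos _ (neg_ne_zero.2 hx))
  obtain ⟨m, hm⟩ : ∃ m : E3, ∀ y, l (S.symm y) = 2 * inner ℝ y m := by
    refine ⟨(1 / 2 : ℝ) • (InnerProductSpace.toDual ℝ E3).symm
      (LinearMap.toContinuousLinearMap (l ∘ₗ S.symm.toLinearMap)), fun y => ?_⟩
    rw [real_inner_smul_right, real_inner_comm, InnerProductSpace.toDual_symm_apply]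
    simp
  set ρ := √(1 + ‖m‖ ^ 2) with hρ
  have ρ0 : 0 < ρ := sqrt_pos.2 (by positivity)
  have ρ2 : ρ ^ 2 = 1 + ‖m‖ ^ 2 := sq_sqrt (by positivity)
  have key : ∀ x, G x ≤ 1 ↔ ‖S x + m‖ ≤ ρ := by
    intro x
    have h1 : G x * G (-x) = ‖S x‖ ^ 2 := hS x
    have h2 : G x - G (-x) = 2 * inner ℝ (S x) m := by
      rw [← hm, S.symm_apply_apply]; rfl
    rw [← sq_le_sq₀ (norm_nonneg _) ρ0.le, norm_add_sq_real, ρ2]
    have := nn (-x)
    constructor
    · intro h
      nlinarith
    · intro h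
      by_contra hc
      push Not at hc
      nlinarith
  refine ⟨((LinearEquiv.smulOfNeZero ℝ E3 ρ ρ0.ne').toAffineEquiv.trans
    (AffineEquiv.constVAdd ℝ E3 (-m))).trans S.symm.toAffineEquiv, ?_⟩
  ext x
  simp only [mem_ofPred_eq, key, mem_image, mem_closedBall_zero_iff]
  constructor
  · intro h
    refine ⟨ρ⁻¹ • (S x + m), ?_, ?_⟩
    · rw [norm_smul, norm_inv, norm_of_nonneg ρ0.le, inv_mul_le_iff₀ ρ0, mul_one]
      exact h
    · simp [smul_smul, ρ0.ne']
  · rintro ⟨y, hy, rfl⟩
    simp only [AffineEquiv.trans_apply, LinearEquiv.coe_toAffineEquiv, AffineEquiv.constVAdd_apply,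
      vadd_eq_add, LinearEquiv.apply_symm_apply, LinearEquiv.smulOfNeZero_apply,
      neg_add_cancel_comm, norm_smul, norm_of_nonneg ρ0.le]
    nlinarith

/-- The gauge of the section spanned by `a`, `b`. -/
noncomputable def secG (K : Set E3) (a b : E3) (y : V) : ℝ := gauge K (y 0 • a + y 1 • b)

variable {K : Set E3}

lemma gauge_pos' (hc : IsCompact K) (h0 : K ∈ 𝓝 (0 : E3)) {x : E3} (hx : x ≠ 0) :
    0 < gauge K x :=
  (gauge_pos (absorbent_nhds_zero h0)
    ((NormedSpace.isVonNBounded_iff ℝ).2 hc.isBounded)).2 hx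

lemma isGauge_secG (hv : Convex ℝ K) (hc : IsCompact K) (h0 : K ∈ 𝓝 (0 : E3)) {a b : E3}
    (h : LinearIndependent ℝ ![a, b]) : IsGauge (secG K a b) where
  cont := (continuous_gauge hv h0).comp (by fun_prop)
  add x y := by
    have e : (x + y) 0 • a + (x + y) 1 • b = (x 0 • a + x 1 • b) + (y 0 • a + y 1 • b) := by
      simp only [Pi.add_apply, add_smul]; abel
    simp only [secG, e]
    exact gauge_add_le hv (absorbent_nhds_zero h0) _ _
  smul c hc x := by
    have e : (c • x) 0 • a + (c • x) 1 • b = c • (x 0 • a + x 1 • b) := by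
      simp only [Pi.smul_apply, smul_eq_mul, mul_smul, smul_add]
    simp only [secG, e]
    exact gauge_smul_of_nonneg hc _
  indep x y h0 h1 := by simp only [secG, h0, h1]
  pos x hx := gauge_pos' hc h0 fun e => by
    have := LinearIndependent.pair_iff.1 h _ _ e
    tauto

lemma planar_of_conic (hv : Convex ℝ K) (hc : IsCompact K) (h0 : K ∈ 𝓝 (0 : E3)) {a b : E3}
    (h : LinearIndependent ℝ ![a, b]) (hC : IsConic (secG K a b)) :
    ∃ p q A B C : ℝ, ∀ s t : ℝ,
      gauge K (s • a + t • b) - gauge K (-(s • a + t • b)) = p * s + q * t ∧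
      gauge K (s • a + t • b) * gauge K (-(s • a + t • b)) = A * s ^ 2 + B * s * t + C * t ^ 2 := by
  obtain ⟨L, κ, hL⟩ := hC
  obtain ⟨β, p, q, A, B, C, hF⟩ : ∃ β p q A B C : ℝ, ∀ s t u : ℝ,
      (L *ᵥ ![s, t, u]) 0 ^ 2 + (L *ᵥ ![s, t, u]) 1 ^ 2 - κ * (L *ᵥ ![s, t, u]) 2 ^ 2 =
        β * u ^ 2 + (p * s + q * t) * u + (A * s ^ 2 + B * s * t + C * t ^ 2) :=
    ⟨L 0 2 ^ 2 + L 1 2 ^ 2 - κ * L 2 2 ^ 2,
      2 * (L 0 0 * L 0 2 + L 1 0 * L 1 2 - κ * L 2 0 * L 2 2),
      2 * (L 0 1 * L 0 2 + L 1 1 * L 1 2 - κ * L 2 1 * L 2 2),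
      L 0 0 ^ 2 + L 1 0 ^ 2 - κ * L 2 0 ^ 2,
      2 * (L 0 0 * L 0 1 + L 1 0 * L 1 1 - κ * L 2 0 * L 2 1),
      L 0 1 ^ 2 + L 1 1 ^ 2 - κ * L 2 1 ^ 2, fun s t u => by
        simp [mulVec, dotProduct, Fin.sum_univ_three]
        ring⟩
  have hβ : β ≠ 0 := by
    intro e
    have := (hL ![0, 0, 1]).1 (by rw [hF, e]; ring)
    simp [secG] at this
  refine ⟨-p / β, -q / β, -A / β, -B / β, -C / β, fun s t => ?_⟩
  rcases eq_or_ne (s • a + t • b) 0 with e | e
  · obtain ⟨rfl, rfl⟩ := LinearIndependent.pair_iff.1 h _ _ e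
    simp
  have g1 := gauge_pos' hc h0 e
  have g2 := gauge_pos' hc h0 (neg_ne_zero.2 e)
  have r1 := (hL ![s, t, gauge K (s • a + t • b)]).2 (Or.inl rfl)
  have r2 := (hL ![s, t, -gauge K (-(s • a + t • b))]).2 (Or.inr (by
    simp [secG, add_comm]))
  rw [hF] at r1 r2
  set x := gauge K (s • a + t • b)
  set y := gauge K (-(s • a + t • b))
  have k1 : β * (x - y) + (p * s + q * t) = 0 := by
    have : (x + y) * (β * (x - y) + (p * s + q * t)) = 0 := by linear_combination r1 - r2
    exact (mul_eq_zero.1 this).resolve_left (by positivity)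
  constructor
  · field_simp
    linear_combination k1
  · field_simp
    linear_combination r1 - x * k1

end Pool.Agent.Lib.MP_2f98a8_gt
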