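import Mathlib
import Pool.Agent.Lib.MP_2f98a8_gt.Ellipsoid

/-!
A convex body in three-space whose sections through an interior point are projectively
equivalent is an ellipsoid.
-/

namespace Pool.Agent.Lib.MP_2f98a8_gt

open Set Filter Topology Matrix Real

variable {K : Set E3}

lemma exists_chart (hv : Convex ℝ K) (hc : IsCompact K) (h0 : K ∈ 𝓝 (0 : E3)) {a b : E3}
    (h : LinearIndependent ℝ ![a, b]) :
    ∃ H : Submodule ℝ E3, Module.finrank ℝ H = 2 ∧ ∃ ι : V ≃ₗ[ℝ] (H × ℝ), ∀ y : V,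
      DCone (secG K a b) y ↔
        ι y ∈ {p : H × ℝ | ∃ t : ℝ, ∃ x : H, (x : E3) ∈ frontier K ∧ p = (t • x, t)} := by
  let H : Submodule ℝ E3 := Submodule.span ℝ (range ![a, b])
  have hH : Module.finrank ℝ H = 2 := by simpa using finrank_span_eq_card h
  have ha : a ∈ H := Submodule.subset_span ⟨0, rfl⟩
  have hb : b ∈ H := Submodule.subset_span ⟨1, rfl⟩
  let f : V →ₗ[ℝ] (H × ℝ) :=
    { toFun := fun y => (y 0 • ⟨a, ha⟩ + y 1 • ⟨b, hb⟩, y 2)
      map_add' := fun x y => by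
        ext
        · simp only [Pi.add_apply, add_smul, Prod.fst_add, Submodule.coe_add]; abel_nf
        · simp
      map_smul' := fun c x => by
        ext
        · simp only [Pi.smul_apply, smul_eq_mul, mul_smul, RingHom.id_apply, Prod.smul_fst,
            smul_add]
        · simp }
  have hf : Function.Injective f := by
    rw [injective_iff_map_eq_zero]
    intro y hy
    have h1 : y 0 • a + y 1 • b = 0 := congrArg (fun p : H × ℝ => (p.1 : E3)) hy
    have h2 : y 2 = 0 := congrArg Prod.snd hy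
    obtain ⟨h3, h4⟩ := LinearIndependent.pair_iff.1 h _ _ h1
    ext i
    fin_cases i
    exacts [h3, h4, h2]
  refine ⟨H, hH, f.linearEquivOfInjective hf (by simp [hH]), fun y => ?_⟩
  rw [LinearMap.linearEquivOfInjective_apply]
  have a0 : a ≠ 0 := by simpa using h.ne_zero 0
  have ga := gauge_pos' hc h0 a0
  have neg : secG K a b (-y) = gauge K (-(y 0 • a + y 1 • b)) := by
    simp [secG, add_comm]
  have core : ∀ (u : H) (t : ℝ), gauge K (u : E3) = t →
      ∃ x : H, (x : E3) ∈ frontier K ∧ u = t • x := by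
    intro u t e
    rcases eq_or_ne u 0 with rfl | hu
    · refine ⟨(gauge K a)⁻¹ • ⟨a, ha⟩, ?_, ?_⟩
      · rw [← gauge_eq_one_iff_mem_frontier hv h0, Submodule.coe_smul,
          gauge_smul_of_nonneg (inv_pos.2 ga).le]
        exact inv_mul_cancel₀ ga.ne'
      · simp [← e]
    · have := gauge_pos' hc h0 (x := u) (by simpa using hu)
      rw [e] at this
      refine ⟨t⁻¹ • u, ?_, by rw [smul_smul, mul_inv_cancel₀ this.ne', one_smul]⟩
      rw [← gauge_eq_one_iff_mem_frontier hv h0, Submodule.coe_smul,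
        gauge_smul_of_nonneg (inv_pos.2 this).le, e]
      exact inv_mul_cancel₀ this.ne'
  constructor
  · rintro (e | e)
    · obtain ⟨x, hx, ex⟩ := core (f y).1 (y 2) e
      exact ⟨y 2, x, hx, Prod.ext ex rfl⟩
    · rw [neg] at e
      obtain ⟨x, hx, ex⟩ := core (-(f y).1) (-y 2) e
      rw [neg_smul, neg_inj] at ex
      exact ⟨y 2, x, hx, Prod.ext ex rfl⟩
  · rintro ⟨t, x, hx, e⟩
    rw [← gauge_eq_one_iff_mem_frontier hv h0] at hx
    have h1 : y 0 • a + y 1 • b = t • (x : E3) := congrArg (fun p : H × ℝ => (p.1 : E3)) e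
    have h2 : y 2 = t := congrArg Prod.snd e
    rcases le_total 0 t with ht | ht
    · left
      rw [secG, h1, gauge_smul_of_nonneg ht, hx, h2]
      simp
    · right
      rw [neg, h1, ← neg_smul, gauge_smul_of_nonneg (neg_nonneg.2 ht), hx, Pi.neg_apply, h2]
      simp

/-- First vector of the twisting frame. -/
noncomputable def frA (w : ℝ × ℝ) : E3 :=
  !₂[w.1 ^ 2 - w.2 ^ 2 + (1 - w.1 ^ 2 - w.2 ^ 2) ^ 2, 2 * w.1 * w.2,
    2 * (1 - w.1 ^ 2 - w.2 ^ 2) * w.2]

/-- Second vector of the twisting frame. -/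
noncomputable def frB (w : ℝ × ℝ) : E3 :=
  !₂[-(2 * w.1 * w.2), w.1 ^ 2 - w.2 ^ 2 - (1 - w.1 ^ 2 - w.2 ^ 2) ^ 2,
    2 * (1 - w.1 ^ 2 - w.2 ^ 2) * w.1]

lemma fr_indep (w : ℝ × ℝ) : LinearIndependent ℝ ![frA w, frB w] := by
  obtain ⟨p, q⟩ := w
  rw [LinearIndependent.pair_iff]
  intro s t e
  have e0 := congrArg (fun x : E3 => x 0) e
  have e1 := congrArg (fun x : E3 => x 1) e
  have e2 := congrArg (fun x : E3 => x 2) e
  simp [frA, frB] at e0 e1 e2
  set β := 1 - p ^ 2 - q ^ 2 with hβ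
  have pos : 0 < p ^ 2 + q ^ 2 + β ^ 2 := by
    rcases eq_or_ne β 0 with h | h
    · rw [h]; linarith
    · positivity
  have : (p ^ 2 + q ^ 2 + β ^ 2) ^ 2 * (s ^ 2 + t ^ 2) = 0 := by
    linear_combination (s * (p ^ 2 - q ^ 2 + β ^ 2) - t * (2 * p * q)) * e0 +
      (s * (2 * p * q) + t * (p ^ 2 - q ^ 2 - β ^ 2)) * e1 +
      (s * (2 * β * q) + t * (2 * β * p)) * e2
  have h2 : s ^ 2 + t ^ 2 = 0 := (mul_eq_zero.1 this).resolve_left (by positivity)
  constructor <;> nlinarith [sq_nonneg s, sq_nonneg t]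

lemma continuous_frA : Continuous frA := by
  unfold frA
  refine (PiLp.continuous_toLp 2 _).comp (continuous_pi fun i => ?_)
  fin_cases i <;> simp <;> fun_prop

lemma continuous_frB : Continuous frB := by
  unfold frB
  refine (PiLp.continuous_toLp 2 _).comp (continuous_pi fun i => ?_)
  fin_cases i <;> simp <;> fun_prop

theorem main (hv : Convex ℝ K) (hc : IsCompact K) (hi : (0 : E3) ∈ interior K)
    (H : ∀ H₁ H₂ : Submodule ℝ E3, Module.finrank ℝ H₁ = 2 → Module.finrank ℝ H₂ = 2 →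
      ∃ L : (H₁ × ℝ) ≃ₗ[ℝ] (H₂ × ℝ),
        L '' {p : H₁ × ℝ | ∃ t : ℝ, ∃ x : H₁, (x : E3) ∈ frontier K ∧ p = (t • x, t)} =
          {p : H₂ × ℝ | ∃ t : ℝ, ∃ x : H₂, (x : E3) ∈ frontier K ∧ p = (t • x, t)}) :
    ∃ A : E3 ≃ᵃ[ℝ] E3, K = A '' Metric.closedBall 0 1 := by
  have h0 : K ∈ 𝓝 (0 : E3) := mem_interior_iff_mem_nhds.1 hi
  have heq : ∀ a b a' b' : E3, LinearIndependent ℝ ![a, b] → LinearIndependent ℝ ![a', b'] →
      ∃ M : Mat, IsUnit M ∧ ∀ v, DCone (secG K a b) v ↔ DCone (secG K a' b') (M *ᵥ v) := by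
    intro a b a' b' h h'
    obtain ⟨H₁, d₁, ι₁, e₁⟩ := exists_chart hv hc h0 h
    obtain ⟨H₂, d₂, ι₂, e₂⟩ := exists_chart hv hc h0 h'
    obtain ⟨L, hL⟩ := H H₁ H₂ d₁ d₂
    let T : V ≃ₗ[ℝ] V := (ι₁.trans L).trans ι₂.symm
    refine ⟨LinearMap.toMatrix' T.toLinearMap, ?_, fun v => ?_⟩
    · refine IsUnit.of_mul_eq_one (LinearMap.toMatrix' T.symm.toLinearMap) ?_
      rw [← LinearMap.toMatrix'_comp]
      simp
    · rw [e₁, e₂, ← hL, LinearMap.toMatrix'_mulVec]
      simp only [T, LinearEquiv.coe_coe, LinearEquiv.trans_apply, LinearEquiv.apply_symm_apply]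
      exact (L.injective.mem_set_image).symm
  have base : IsConic (secG K (frA (1, 0)) (frB (1, 0))) := by
    refine conic_of_family (N := fun w => secG K (frA w) (frB w))
      (fun w => isGauge_secG hv hc h0 (fr_indep w)) ?_
      (fun x y => heq _ _ _ _ (fr_indep x) (fr_indep y)) fun τ v => ?_
    · have c1 := continuous_frA
      have c2 := continuous_frB
      exact (continuous_gauge hv h0).comp (by fun_prop)
    · have hβ : 1 - cos τ ^ 2 - sin τ ^ 2 = 0 := by linarith [sin_sq_add_cos_sq τ]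
      simp only [secG, rot_mulVec]
      congr 1
      ext i
      fin_cases i <;> simp [frA, frB, hβ, cos_two_mul', sin_two_mul] <;> ring
  have all : ∀ a b : E3, LinearIndependent ℝ ![a, b] → IsConic (secG K a b) := by
    intro a b h
    obtain ⟨M, -, hM⟩ := heq _ _ _ _ h (fr_indep (1, 0))
    obtain ⟨L, κ, hL⟩ := base
    exact ⟨L * M, κ, fun y => by rw [← mulVec_mulVec, hL]; exact (hM y).symm⟩
  obtain ⟨A, hA⟩ := ellipsoid_of_planar (G := gauge K) (fun x hx => gauge_pos' hc h0 hx)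
    (fun c hc x => gauge_smul_of_nonneg hc x)
    (fun a b h => planar_of_conic hv hc h0 h (all a b h))
  refine ⟨A, ?_⟩
  rw [← hA]
  ext x
  rw [mem_ofPred_eq, gauge_le_one_iff_mem_closure hv h0, hc.isClosed.closure_eq]

end Pool.Agent.Lib.MP_2f98a8_gt
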